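import Pool.Agent.H8.KF.Defs
import Mathlib

/-! # [AN-NUM] Numerical lemmas -/

namespace Pool.Agent.H97.AN

open Finset Pool.Agent.H8.KF

theorem num_TT {n la : ℕ} (hn : 4 ≤ n) (hla : 8 * n ≤ la) : TT n la ≤ (6 * n + 1) * la := by
  unfold TT ee
  have h1 : 2 * (la / 2) ≤ la := Nat.mul_div_le la 2
  have h2 : (6 * n + 1) * la = 6 * n * la + la := by ring
  rw [h2]
  omega

theorem num_lin {n la : ℕ} (hn : 4 ≤ n) (hla : 512 * n ^ 3 ≤ la) :
    8 * n ≤ la ∧ 4 * n ^ 2 * la ≤ 2 ^ la ∧ 4 * n ^ 2 ≤ 2 ^ la ∧ 64 * n ^ 2 ≤ la := by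
  have h0 : 4 * 4 ≤ n * n := Nat.mul_le_mul hn hn
  have h1 : n ^ 3 = n * n ^ 2 := by ring
  have h2 : 4 * n ^ 2 ≤ n ^ 3 := by rw [h1]; exact Nat.mul_le_mul_right _ hn
  have h3 : n ≤ n ^ 2 := Nat.le_self_pow (by norm_num) n
  have h5 : 64 * n ^ 2 ≤ la := by omega
  have h6 : 4 * n ^ 2 * 2 ≤ la := by omega
  -- la^2 ≤ 2^la for la ≥ 4
  have h7 : la ^ 2 ≤ 2 ^ la := by
    have h8 : ∀ m : ℕ, 4 ≤ m → m ^ 2 ≤ 2 ^ m := by
      intro m hm
      induction m, hm using Nat.le_induction with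
      | base => norm_num
      | succ k hk ih =>
        have : 2 ^ (k + 1) = 2 * 2 ^ k := by ring
        rw [this]
        nlinarith
    exact h8 la (by omega)
  refine ⟨by omega, ?_, ?_, h5⟩
  · refine le_trans ?_ h7
    rw [sq la]
    exact Nat.mul_le_mul_right _ (by omega)
  · refine le_trans ?_ h7
    rw [sq la]
    calc 4 * n ^ 2 ≤ la * 1 := by omega
      _ ≤ la * la := Nat.mul_le_mul_left _ (by omega)

variable {n la : ℕ} {a V δ : ℝ}

/-- the basic consequences of the size hypotheses -/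
theorem num_a (hn : 4 ≤ n) (ha : (2 : ℝ) ^ (1100 * n ^ 5) ≤ a) : 2 ≤ a ∧ 1 < a := by
  have h1 : (2 : ℝ) ^ 1 ≤ (2 : ℝ) ^ (1100 * n ^ 5) := by
    refine pow_le_pow_right₀ (by norm_num) ?_
    have : 0 < n ^ 5 := by positivity
    omega
  have h2 : (2 : ℝ) ≤ a := by
    rw [pow_one] at h1
    exact h1.trans ha
  exact ⟨h2, by linarith⟩

theorem num_lt_one (hn : 4 ≤ n) (hla : 512 * n ^ 3 ≤ la) (ha : (2 : ℝ) ^ (1100 * n ^ 5) ≤ a)
    (hδ1 : 1 ≤ δ) (hδ : δ ^ (100 * n) ≤ a) (hV1 : 1 ≤ V)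
    (hV : V ^ (13312 * n ^ 4) ≤ a ^ (la + 1)) (k : ℕ) (hk : k ≤ la / 4) (c : ℝ)
    (hc : c * a ^ (ee la - k) ≤ 2 ^ (30 * n ^ 2 * la) * V ^ (78 * n) * δ ^ TT n la) : c < 1 := by
  obtain ⟨ha2, ha1⟩ := num_a hn ha
  obtain ⟨hla8, -, -, -⟩ := num_lin hn hla
  have hTT := num_TT hn hla8
  have ha0 : 0 < a := by linarith
  have hee : 4 * la + 2 ≤ 16 * (ee la - k) := by
    unfold ee
    omega
  by_contra hcon
  push Not at hcon
  have h1 : a ^ (ee la - k) ≤ 2 ^ (30 * n ^ 2 * la) * V ^ (78 * n) * δ ^ TT n la := by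
    refine le_trans ?_ hc
    have : 0 < a ^ (ee la - k) := by positivity
    nlinarith
  have h2 : (a ^ (ee la - k)) ^ 16 ≤
      (2 ^ (30 * n ^ 2 * la) * V ^ (78 * n) * δ ^ TT n la) ^ 16 :=
    pow_le_pow_left₀ (by positivity) h1 16
  have h3 : (2 ^ (30 * n ^ 2 * la) * V ^ (78 * n) * δ ^ TT n la) ^ 16 ≤
      a ^ la * a ^ (la + 1) * a ^ la := by
    have e1 : ((2 : ℝ) ^ (30 * n ^ 2 * la)) ^ 16 ≤ a ^ la := by
      calc ((2 : ℝ) ^ (30 * n ^ 2 * la)) ^ 16 = ((2 : ℝ) ^ (480 * n ^ 2)) ^ la := by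
            rw [← pow_mul, ← pow_mul]; congr 1; ring
        _ ≤ ((2 : ℝ) ^ (1100 * n ^ 5)) ^ la := by
            refine pow_le_pow_left₀ (by positivity) (pow_le_pow_right₀ (by norm_num) ?_) _
            have : n ^ 2 ≤ n ^ 5 := Nat.pow_le_pow_right (by omega) (by norm_num)
            omega
        _ ≤ a ^ la := pow_le_pow_left₀ (by positivity) ha _
    have e2 : (V ^ (78 * n)) ^ 16 ≤ a ^ (la + 1) := by
      calc (V ^ (78 * n)) ^ 16 = V ^ (1248 * n) := by rw [← pow_mul]; congr 1; ring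
        _ ≤ V ^ (13312 * n ^ 4) := by
            refine pow_le_pow_right₀ hV1 ?_
            have : n ≤ n ^ 4 := Nat.le_self_pow (by norm_num) n
            omega
        _ ≤ _ := hV
    have e3 : (δ ^ TT n la) ^ 16 ≤ a ^ la := by
      calc (δ ^ TT n la) ^ 16 = δ ^ (16 * TT n la) := by rw [← pow_mul]; congr 1; ring
        _ ≤ δ ^ (100 * n * la) := by
            refine pow_le_pow_right₀ hδ1 ?_
            calc 16 * TT n la ≤ 16 * ((6 * n + 1) * la) := Nat.mul_le_mul_left _ hTT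
              _ = (96 * n + 16) * la := by ring
              _ ≤ 100 * n * la := Nat.mul_le_mul_right _ (by omega)
        _ = (δ ^ (100 * n)) ^ la := by rw [pow_mul]
        _ ≤ a ^ la := pow_le_pow_left₀ (by positivity) hδ _
    rw [mul_pow, mul_pow]
    have p1 : (0 : ℝ) ≤ (V ^ (78 * n)) ^ 16 := by positivity
    have p2 : (0 : ℝ) ≤ (δ ^ TT n la) ^ 16 := by positivity
    exact mul_le_mul (mul_le_mul e1 e2 p1 (by positivity)) e3 p2 (by positivity)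
  have h4 : a ^ la * a ^ (la + 1) * a ^ la = a ^ (3 * la + 1) := by
    rw [← pow_add, ← pow_add]; congr 1; ring
  have h5 : a ^ (3 * la + 1) < (a ^ (ee la - k)) ^ 16 := by
    rw [← pow_mul]
    refine pow_lt_pow_right₀ ha1 ?_
    omega
  rw [h4] at h3
  linarith

theorem num_nz (hn : 4 ≤ n) (hla : 512 * n ^ 3 ≤ la) (ha : (2 : ℝ) ^ (1100 * n ^ 5) ≤ a)
    (hV1 : 1 ≤ V) (hV : V ^ (13312 * n ^ 4) ≤ a ^ (la + 1)) :
    2 ^ (16 * n ^ 3 * la) * V ^ (53 * n ^ 2) < a ^ la := by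
  obtain ⟨ha2, ha1⟩ := num_a hn ha
  obtain ⟨hla8, -, -, -⟩ := num_lin hn hla
  have ha0 : 0 < a := by linarith
  have h1 : (2 ^ (16 * n ^ 3 * la) * V ^ (53 * n ^ 2)) ^ 4 < (a ^ la) ^ 4 := by
    have e1 : ((2 : ℝ) ^ (16 * n ^ 3 * la)) ^ 4 ≤ a ^ la := by
      calc ((2 : ℝ) ^ (16 * n ^ 3 * la)) ^ 4 = ((2 : ℝ) ^ (64 * n ^ 3)) ^ la := by
            rw [← pow_mul, ← pow_mul]; congr 1; ring
        _ ≤ ((2 : ℝ) ^ (1100 * n ^ 5)) ^ la := by
            refine pow_le_pow_left₀ (by positivity) (pow_le_pow_right₀ (by norm_num) ?_) _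
            have : n ^ 3 ≤ n ^ 5 := Nat.pow_le_pow_right (by omega) (by norm_num)
            omega
        _ ≤ a ^ la := pow_le_pow_left₀ (by positivity) ha _
    have e2 : (V ^ (53 * n ^ 2)) ^ 4 ≤ a ^ (la + 1) := by
      calc (V ^ (53 * n ^ 2)) ^ 4 = V ^ (212 * n ^ 2) := by rw [← pow_mul]; congr 1; ring
        _ ≤ V ^ (13312 * n ^ 4) := by
            refine pow_le_pow_right₀ hV1 ?_
            have : n ^ 2 ≤ n ^ 4 := Nat.pow_le_pow_right (by omega) (by norm_num)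
            omega
        _ ≤ _ := hV
    rw [mul_pow]
    calc ((2 : ℝ) ^ (16 * n ^ 3 * la)) ^ 4 * (V ^ (53 * n ^ 2)) ^ 4 ≤ a ^ la * a ^ (la + 1) :=
          mul_le_mul e1 e2 (by positivity) (by positivity)
      _ = a ^ (2 * la + 1) := by rw [← pow_add]; congr 1; ring
      _ < a ^ (la * 4) := pow_lt_pow_right₀ ha1 (by omega)
      _ = (a ^ la) ^ 4 := by rw [pow_mul]
  exact lt_of_pow_lt_pow_left₀ 4 (by positivity) h1

theorem num_final {nu : ℕ} (hn : 4 ≤ n) (hnu1 : 1 ≤ nu) (hnu : nu ≤ n)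
    (hla : 512 * n ^ 3 ≤ la) (ha : (2 : ℝ) ^ (1100 * n ^ 5) ≤ a)
    (hV1 : 1 ≤ V) (hV : V ^ (13312 * n ^ 4) ≤ a ^ (la + 1)) (M Z : ℝ) (hM1 : 1 ≤ M)
    (hM : M ≤ 2 * a) (hZ1 : 1 ≤ Z) (hZ : Z ≤ 2 ^ (16 * n ^ 2 * la) * V ^ (52 * n))
    (h : a ^ ((la / 4 + 1 - (3 * n + 1) * n) / nu) ≤ M ^ ((3 * n + 1) * n) *
      ((((3 * n + 1) * n : ℕ) : ℝ) *
        ((nu * ((3 * n * la : ℕ) + 1) : ℝ) ^ ((3 * n + 1) * n) * Z)) ^ ((3 * n + 1) * n)) :
    False := by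
  obtain ⟨ha2, ha1⟩ := num_a hn ha
  obtain ⟨hla8, hlin1, hlin2, hlin3⟩ := num_lin hn hla
  have ha0 : 0 < a := by linarith
  set r0 : ℕ := (3 * n + 1) * n with hr0
  have hr0le : r0 ≤ 4 * n ^ 2 := by
    have h1 : r0 = 3 * n ^ 2 + n := by rw [hr0]; ring
    have h2 : n ≤ n ^ 2 := Nat.le_self_pow (by norm_num) n
    omega
  have hr01 : 1 ≤ r0 := by
    rw [hr0]
    exact Nat.mul_pos (by omega) (by omega)
  set s : ℕ := (la / 4 + 1 - r0) / nu with hs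
  -- lower bound for s
  have hs8 : 8 * la ≤ 64 * n * s := by
    have h1 : la / 4 + 1 - r0 < nu * (s + 1) := by
      rw [hs]
      exact Nat.lt_mul_div_succ _ (by omega)
    have h2 : nu * (s + 1) ≤ n * (s + 1) := Nat.mul_le_mul_right _ hnu
    have h3 : n * (s + 1) = n * s + n := by ring
    have h4 : 64 * n * s = 64 * (n * s) := by ring
    have h5 : n ≤ n ^ 2 := Nat.le_self_pow (by norm_num) n
    omega
  have h2la : ((4 * n ^ 2 * la : ℕ) : ℝ) ≤ 2 ^ la := by exact_mod_cast hlin1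
  have h2la' : ((4 * n ^ 2 : ℕ) : ℝ) ≤ 2 ^ la := by exact_mod_cast hlin2
  -- the base
  have hD1 : (1 : ℝ) ≤ (nu * ((3 * n * la : ℕ) + 1) : ℝ) := by
    have h1 : 1 ≤ nu * (3 * n * la + 1) := Nat.mul_pos (by omega) (by omega)
    exact_mod_cast h1
  have hD : (nu * ((3 * n * la : ℕ) + 1) : ℝ) ≤ 2 ^ la := by
    refine le_trans ?_ h2la
    have h1 : nu * (3 * n * la + 1) ≤ 4 * n ^ 2 * la := by
      calc nu * (3 * n * la + 1) ≤ n * (3 * n * la + n * la) := by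
            refine Nat.mul_le_mul hnu ?_
            have : 1 ≤ n * la := Nat.mul_pos (by omega) (by omega)
            omega
        _ = 4 * n ^ 2 * la := by ring
    exact_mod_cast h1
  set D : ℝ := (nu * ((3 * n * la : ℕ) + 1) : ℝ) with hDdef
  set W : ℝ := ((r0 : ℕ) : ℝ) * (D ^ r0 * Z) with hW
  have hr0R : (1 : ℝ) ≤ ((r0 : ℕ) : ℝ) := by exact_mod_cast hr01
  have hW1 : 1 ≤ W := one_le_mul_of_one_le_of_one_le hr0R
    (one_le_mul_of_one_le_of_one_le (one_le_pow₀ hD1) hZ1)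
  have hWle : W ≤ 2 ^ (la + 20 * n ^ 2 * la) * V ^ (52 * n) := by
    have e1 : ((r0 : ℕ) : ℝ) ≤ 2 ^ la := by
      refine le_trans ?_ h2la'
      exact_mod_cast hr0le
    have e2 : D ^ r0 ≤ 2 ^ (4 * n ^ 2 * la) := by
      calc D ^ r0 ≤ (2 ^ la) ^ r0 := pow_le_pow_left₀ (by linarith) hD _
        _ ≤ (2 ^ la) ^ (4 * n ^ 2) := pow_le_pow_right₀ (one_le_pow₀ (by norm_num)) hr0le
        _ = 2 ^ (4 * n ^ 2 * la) := by rw [← pow_mul]; congr 1; ring
    calc W ≤ 2 ^ la * (2 ^ (4 * n ^ 2 * la) * (2 ^ (16 * n ^ 2 * la) * V ^ (52 * n))) := by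
          rw [hW]
          refine mul_le_mul e1 (mul_le_mul e2 hZ (by linarith) (by positivity)) (by positivity)
            (by positivity)
      _ = 2 ^ (la + 20 * n ^ 2 * la) * V ^ (52 * n) := by
          rw [show la + 20 * n ^ 2 * la = la + (4 * n ^ 2 * la + 16 * n ^ 2 * la) by ring,
            pow_add, pow_add]
          ring
  have hWr : W ^ r0 ≤ 2 ^ (81 * n ^ 4 * la) * V ^ (208 * n ^ 3) := by
    calc W ^ r0 ≤ W ^ (4 * n ^ 2) := pow_le_pow_right₀ hW1 hr0le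
      _ ≤ (2 ^ (la + 20 * n ^ 2 * la) * V ^ (52 * n)) ^ (4 * n ^ 2) :=
          pow_le_pow_left₀ (by linarith) hWle _
      _ = 2 ^ ((la + 20 * n ^ 2 * la) * (4 * n ^ 2)) * V ^ (208 * n ^ 3) := by
          rw [mul_pow, ← pow_mul, ← pow_mul]
          congr 2
          ring
      _ ≤ 2 ^ (81 * n ^ 4 * la) * V ^ (208 * n ^ 3) := by
          refine mul_le_mul_of_nonneg_right (pow_le_pow_right₀ (by norm_num) ?_) (by positivity)
          have e1 : (la + 20 * n ^ 2 * la) * (4 * n ^ 2) = (4 * n ^ 2 + 80 * n ^ 4) * la := by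
            ring
          have e2 : 4 * n ^ 2 ≤ n ^ 4 := by
            have : n ^ 4 = n ^ 2 * n ^ 2 := by ring
            rw [this]
            refine Nat.mul_le_mul_right _ ?_
            nlinarith
          rw [e1]
          exact Nat.mul_le_mul_right _ (by omega)
  have hMr : M ^ r0 ≤ a ^ (8 * n ^ 2) := by
    have e1 : M ≤ a ^ 2 := by nlinarith
    calc M ^ r0 ≤ M ^ (4 * n ^ 2) := pow_le_pow_right₀ hM1 hr0le
      _ ≤ (a ^ 2) ^ (4 * n ^ 2) := pow_le_pow_left₀ (by linarith) e1 _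
      _ = a ^ (8 * n ^ 2) := by rw [← pow_mul]; congr 1; ring
  have hmain : a ^ s ≤ a ^ (8 * n ^ 2) * (2 ^ (81 * n ^ 4 * la) * V ^ (208 * n ^ 3)) :=
    h.trans (mul_le_mul hMr hWr (by positivity) (by positivity))
  have h64 : (a ^ s) ^ (64 * n) ≤
      (a ^ (8 * n ^ 2) * (2 ^ (81 * n ^ 4 * la) * V ^ (208 * n ^ 3))) ^ (64 * n) :=
    pow_le_pow_left₀ (by positivity) hmain _
  have hlow : a ^ (8 * la) ≤ (a ^ s) ^ (64 * n) := by
    rw [← pow_mul]
    refine pow_le_pow_right₀ ha1.le ?_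
    rw [mul_comm s]
    exact hs8
  have hup : (a ^ (8 * n ^ 2) * (2 ^ (81 * n ^ 4 * la) * V ^ (208 * n ^ 3))) ^ (64 * n) ≤
      a ^ la * (a ^ (5 * la) * a ^ (la + 1)) := by
    rw [mul_pow, mul_pow]
    have e1 : (a ^ (8 * n ^ 2)) ^ (64 * n) ≤ a ^ la := by
      rw [← pow_mul]
      refine pow_le_pow_right₀ ha1.le ?_
      calc 8 * n ^ 2 * (64 * n) = 512 * n ^ 3 := by ring
        _ ≤ la := hla
    have e2 : ((2 : ℝ) ^ (81 * n ^ 4 * la)) ^ (64 * n) ≤ a ^ (5 * la) := by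
      calc ((2 : ℝ) ^ (81 * n ^ 4 * la)) ^ (64 * n) = (2 : ℝ) ^ (5184 * n ^ 5 * la) := by
            rw [← pow_mul]; congr 1; ring
        _ ≤ (2 : ℝ) ^ (1100 * n ^ 5 * (5 * la)) := by
            refine pow_le_pow_right₀ (by norm_num) ?_
            have : 1100 * n ^ 5 * (5 * la) = 5500 * n ^ 5 * la := by ring
            rw [this]
            exact Nat.mul_le_mul_right _ (Nat.mul_le_mul_right _ (by norm_num))
        _ = ((2 : ℝ) ^ (1100 * n ^ 5)) ^ (5 * la) := by rw [← pow_mul]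
        _ ≤ a ^ (5 * la) := pow_le_pow_left₀ (by positivity) ha _
    have e3 : (V ^ (208 * n ^ 3)) ^ (64 * n) ≤ a ^ (la + 1) := by
      calc (V ^ (208 * n ^ 3)) ^ (64 * n) = V ^ (13312 * n ^ 4) := by
            rw [← pow_mul]; congr 1; ring
        _ ≤ _ := hV
    exact mul_le_mul e1 (mul_le_mul e2 e3 (by positivity) (by positivity)) (by positivity)
      (by positivity)
  have hlast : a ^ la * (a ^ (5 * la) * a ^ (la + 1)) < a ^ (8 * la) := by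
    rw [← pow_add, ← pow_add]
    exact pow_lt_pow_right₀ ha1 (by omega)
  linarith

end Pool.Agent.H97.AN
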