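import Pool.Agent.H8.KF.BC

/-!
# MP_821da1_nt: effective anchored Siegel theorem -- definitions

`a, b, nu`: the root field contains `γ` with `a γ^nu = b`; `al > 0` is the real value of `±γ`.
`shp nu M a b c = ∑_{j ≤ M, i < nu} c j i a^j b^(M-j) X^(nu j + i)`.
-/

namespace Pool.Agent.H97.AN

open Finset Polynomial Pool.Agent.H72.ES

/-- the polynomial `∑_{j ≤ M, i < nu} c j i a^j b^(M-j) X^(nu j + i)` -/
noncomputable def shp (nu M : ℕ) (a b : ℤ) (c : ℕ → ℕ → ℤ) : ℤ[X] :=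
  ∑ j ∈ range (M + 1), ∑ i ∈ range nu, C (c j i * (a ^ j * b ^ (M - j))) * X ^ (nu * j + i)

/-- Anchor data for the order `O`: elements `g i` with `φ (g i) = φ d * al^i`, where
`a al^nu = b`. -/
structure Anchor {n Q : ℕ} {f : ℤ[X]} {θ : ℝ} (O : Ord ℝ n Q f θ) (nu : ℕ) (a b : ℤ)
    (G : ℝ) where
  d : O.R
  g : ℕ → O.R
  al : ℝ
  al_pos : 0 < al
  al_pow : (a : ℝ) * al ^ nu = b
  d_ne : O.φ d ≠ 0
  φ_g : ∀ i < nu, O.φ (g i) = O.φ d * al ^ i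
  size : ∀ i < nu, O.ν (g i) ≤ G

/-- support: `j ≤ J`, `i < nu`, `p + q ≤ 3n`, `q < n` -/
def SuppA (n nu J : ℕ) (A : ℕ → ℕ → ℕ → ℕ → ℤ) : Prop :=
  ∀ j i p q, A j i p q ≠ 0 → (j ≤ J ∧ i < nu) ∧ (p + q ≤ 3 * n ∧ q < n)

/-- the sum over `j ≤ J`, `i < nu`, `p + q ≤ 3n` of `A j i p q * (u j i * v p q)` -/
def sa {S : Type*} [CommRing S] (n nu J : ℕ) (A : ℕ → ℕ → ℕ → ℕ → ℤ) (u v : ℕ → ℕ → S) : S :=
  ∑ j ∈ range (J + 1), ∑ i ∈ range nu, ∑ p ∈ range (3 * n + 1), ∑ q ∈ range (3 * n + 1 - p),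
    (A j i p q : S) * (u j i * v p q)

end Pool.Agent.H97.AN
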