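import Pool.Agent.H8.KF.Sieg
import Pool.Agent.H97.AN.Defs

/-! # [AN-SIEG] The auxiliary polynomial

Adapt `Pool.Agent.H8.KF.sieg` (same file layout: matrix, `Int.Matrix.exists_ne_zero_int_vec_norm_le`,
`sum_siegelSet`, `sieg_rows`, `TT_le`).
Unknowns `A j i p q`: `j ≤ J = 3 n la` (`Fin (J+1)`), `i < nu` (`Fin nu`), `(q,p) ∈ siegelSet n (3n)`:
`U = (3 n la + 1) nu n (5n+3) / 2` (`siegel_card`). Equations: for `l ≤ 6n`, `k < TT - la l`,
the `n` coordinates `O.coord` of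
`∑ A j i p q * (choose (nu j + i) k * g i * bc (3n) p q l)`:
`E = n R`, `2 R = (6n+1)(2 TT - 6 n la) = (6n+1)(6 n la + 6 n + 2 ee la)` (`sieg_rows`).
`5 E ≤ 4 U`: `ee la ≤ la/2 + 1`, `nu ≥ 3`: `5 (6n+1)(3 n la + 3n + la/2 + 1) ≤ 6 (3 n la + 1)(5n+3)`,
difference `≥ la (24 n - 2.5) - (90n² + 45n + 5) + 30 n + 18 ≥ 102 n² - 35 n + 13 > 0` for
`la ≥ 8n`. Hence `E / (U - E) ≤ 4`.
Size of the entries: `|coord| ≤ O.ν ≤ choose * G * B^(1+2l) ≤ 2^(nu (J+1)) G B^(13n)`
(`O.coord_le`, `O.ν_mul`, `O.ν_int`/nat cast, `an.size`, `bc_bound`, `l ≤ 6n`,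
`nu j + i ≤ nu (J+1)`, `Nat.choose_le_two_pow`), `B = bb n Q`; `nu (J+1) ≤ n (3 n la + 1)`;
`U ≤ 12 n⁴ la ≤ 2^(n² la - n)`, so `U * entry ≤ 2^(4 n² la) G B^(13 n)`; solution bounded by its
fourth power. Put `A = 0` outside the index set. -/

namespace Pool.Agent.H97.AN

open Finset Polynomial Pool.Agent.H72.ES Pool.Agent.H8.KF

variable {n Q : ℕ} {f : ℤ[X]} {θ : ℝ}

attribute [local instance] Matrix.seminormedAddCommGroup

theorem siegA (O : Ord ℝ n Q f θ) {F : ℕ → ℕ → ℤ} (hF : Norml n Q f F) (br : Branch O F)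
    {nu : ℕ} (h3 : 3 ≤ nu) (hnu : nu ≤ n) {a b : ℤ} {G : ℝ} (hG : 1 ≤ G)
    (an : Anchor O nu a b G) (la : ℕ) (hla : 8 * n ≤ la) :
    ∃ A : ℕ → ℕ → ℕ → ℕ → ℤ, (∃ j i p q, A j i p q ≠ 0) ∧ SuppA n nu (3 * n * la) A ∧
      (∀ j i p q, |((A j i p q : ℤ) : ℝ)| ≤
        (2 ^ (4 * n ^ 2 * la) * (G * bb n Q ^ (13 * n))) ^ 4) ∧
      ∀ k l, k + la * l < TT n la →
        sa n nu (3 * n * la) A (fun j i => ((Nat.choose (nu * j + i) k : ℕ) : O.R) * an.g i)
          (fun p q => bc O br (3 * n) p q l) = 0 := by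
  classical
  have hn := hF.hn
  have hQ := hF.hQ
  have hb : 1 ≤ bb n Q := one_le_bb hn hQ
  have hTT := TT_le hn hla
  have hnla : n ≤ n * la := Nat.le_mul_of_pos_right _ (by omega)
  set S2 := siegelSet n (3 * n) with hS2
  have hc2 : 2 * (S2.card : ℤ) = n * (5 * n + 3) := by
    have := siegel_card (n := n) (N := 3 * n) (by omega)
    push_cast at this
    rw [← hS2] at this
    linarith
  let I1 := (Σ l : Fin (6 * n + 1), Fin (TT n la - la * (l : ℕ)))
  let M : Matrix (I1 × Fin n) ((Fin (3 * n * la + 1) × Fin nu) × {p // p ∈ S2}) ℤ :=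
    Matrix.of fun r c => O.coord (((Nat.choose (nu * (c.1.1 : ℕ) + (c.1.2 : ℕ)) (r.1.2 : ℕ) : ℕ) :
      O.R) * an.g (c.1.2 : ℕ) * bc O br (3 * n) c.2.1.2 c.2.1.1 r.1.1) r.2
  set R := (∑ l : Fin (6 * n + 1), (TT n la - la * (l : ℕ))) with hR
  have hcα : Fintype.card (I1 × Fin n) = R * n := by
    rw [Fintype.card_prod, Fintype.card_sigma]
    simp only [Fintype.card_fin, hR]
  have hcβ : Fintype.card ((Fin (3 * n * la + 1) × Fin nu) × {p // p ∈ S2}) =
      (3 * n * la + 1) * nu * S2.card := by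
    rw [Fintype.card_prod, Fintype.card_prod, Fintype.card_coe, Fintype.card_fin, Fintype.card_fin]
  have hRr : 2 * (R : ℝ) = (6 * n + 1) * (2 * TT n la - 6 * n * la) := by
    have := sieg_rows n la
    rw [← hR] at this
    exact_mod_cast this
  have hTTr : (2 * TT n la : ℝ) ≤ 12 * n * la + 6 * n + la + 2 := by
    have h1 : 2 * TT n la ≤ 12 * n * la + 6 * n + la + 2 := by
      unfold TT ee
      have h3 : 2 * (la / 2) ≤ la := Nat.mul_div_le la 2
      nlinarith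
    exact_mod_cast h1
  have hTTr0 : (12 * n * la + 6 * n + la : ℝ) ≤ 2 * TT n la := by
    have h1 : 12 * n * la + 6 * n + la ≤ 2 * TT n la := by
      unfold TT ee
      have h3 : la < 2 * (la / 2 + 1) := by omega
      nlinarith
    exact_mod_cast h1
  have hnR : (4 : ℝ) ≤ n := by exact_mod_cast hn
  have hlaR : 8 * (n : ℝ) ≤ la := by exact_mod_cast hla
  have hnuR : (3 : ℝ) ≤ nu := by exact_mod_cast h3
  have hnunR : (nu : ℝ) ≤ n := by exact_mod_cast hnu
  have hla0 : (0 : ℝ) ≤ la := by linarith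
  have hu2 : 2 * (S2.card : ℝ) = n * (5 * n + 3) := by exact_mod_cast hc2
  have hU : (((3 * n * la + 1) * nu * S2.card : ℕ) : ℝ) =
      (3 * n * la + 1) * nu * (n * (5 * n + 3)) / 2 := by
    push_cast
    rw [← hu2]
    ring
  have h54 : 5 * ((R * n : ℕ) : ℝ) ≤ 4 * (((3 * n * la + 1) * nu * S2.card : ℕ) : ℝ) := by
    rw [hU]
    push_cast
    have hR1 : 2 * (R : ℝ) ≤ (6 * n + 1) * (6 * n * la + 6 * n + la + 2) := by
      rw [hRr]
      exact mul_le_mul_of_nonneg_left (by linarith) (by linarith)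
    have h1 : 5 * ((6 * (n : ℝ) + 1) * (6 * n * la + 6 * n + la + 2)) ≤
        12 * ((3 * n * la + 1) * (5 * n + 3)) := by
      have h2 : (48 * (n : ℝ) - 5) * (8 * n) ≤ (48 * n - 5) * la :=
        mul_le_mul_of_nonneg_left hlaR (by linarith)
      nlinarith
    have h4 : (3 * (n : ℝ) * la + 1) * 3 * (n * (5 * n + 3)) ≤
        (3 * n * la + 1) * nu * (n * (5 * n + 3)) := by
      refine mul_le_mul_of_nonneg_right ?_ (by positivity)
      exact mul_le_mul_of_nonneg_left hnuR (by positivity)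
    have h5 : 5 * (2 * (R : ℝ)) * n ≤ 12 * ((3 * n * la + 1) * (5 * n + 3)) * n := by
      refine mul_le_mul_of_nonneg_right ?_ (by linarith)
      linarith
    linarith
  have hEpos : 0 < ((R * n : ℕ) : ℝ) := by
    push_cast
    have : 0 < (R : ℝ) := by
      have h1 : 0 < 2 * (R : ℝ) := by
        rw [hRr]
        have h2 : (0 : ℝ) < 2 * TT n la - 6 * n * la := by
          have : (0 : ℝ) ≤ 6 * n * la := by positivity
          linarith
        have h3 : (0 : ℝ) < 6 * n + 1 := by linarith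
        positivity
      linarith
    positivity
  have hlt : Fintype.card (I1 × Fin n) <
      Fintype.card ((Fin (3 * n * la + 1) × Fin nu) × {p // p ∈ S2}) := by
    rw [hcα, hcβ]
    have : ((R * n : ℕ) : ℝ) < (((3 * n * la + 1) * nu * S2.card : ℕ) : ℝ) := by linarith
    exact_mod_cast this
  have hmpos : 0 < Fintype.card (I1 × Fin n) := by
    rw [hcα]
    exact_mod_cast hEpos
  obtain ⟨x, hx0, hMx, hxn⟩ := Int.Matrix.exists_ne_zero_int_vec_norm_le M hlt hmpos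
  -- norm bound
  have hMn : ‖M‖ ≤ 2 ^ (n * (3 * n * la + 1)) * (G * bb n Q ^ (13 * n)) := by
    rw [Matrix.norm_le_iff (by positivity)]
    intro r c
    have hcm2 := siegel_mem.1 c.2.2
    rw [Int.norm_eq_abs]
    have hl : (r.1.1 : ℕ) < 6 * n + 1 := r.1.1.2
    have hj : (c.1.1 : ℕ) < 3 * n * la + 1 := c.1.1.2
    have hi : (c.1.2 : ℕ) < nu := c.1.2.2
    refine (O.coord_le _ _).trans ?_
    refine (O.ν_mul _ _).trans ?_
    rw [← mul_assoc]
    refine mul_le_mul ?_ ?_ (O.ν_nonneg _) (by positivity)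
    · refine (O.ν_mul _ _).trans ?_
      refine mul_le_mul ?_ (an.size _ hi) (O.ν_nonneg _) (by positivity)
      have h1 := O.ν_int ((Nat.choose (nu * (c.1.1 : ℕ) + (c.1.2 : ℕ)) (r.1.2 : ℕ) : ℕ) : ℤ)
      rw [Int.cast_natCast, Int.cast_natCast, abs_of_nonneg (Nat.cast_nonneg _)] at h1
      refine h1.trans ?_
      have h2 : Nat.choose (nu * (c.1.1 : ℕ) + (c.1.2 : ℕ)) (r.1.2 : ℕ) ≤
          2 ^ (n * (3 * n * la + 1)) := by
        refine (Nat.choose_le_two_pow _ _).trans (Nat.pow_le_pow_right (by norm_num) ?_)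
        calc nu * (c.1.1 : ℕ) + (c.1.2 : ℕ) ≤ nu * (c.1.1 : ℕ) + nu := by omega
          _ = nu * ((c.1.1 : ℕ) + 1) := by ring
          _ ≤ n * (3 * n * la + 1) := Nat.mul_le_mul hnu (by omega)
      exact_mod_cast h2
    · refine (bc_bound O hF br _ _ _ _ hcm2.1).trans ?_
      exact pow_le_pow_right₀ hb (by omega)
  have hxle : ‖x‖ ≤ (2 ^ (4 * n ^ 2 * la) * (G * bb n Q ^ (13 * n))) ^ 4 := by
    refine hxn.trans ?_
    rw [hcα, hcβ]
    have hUpos : 0 < (3 * n * la + 1) * nu * S2.card := by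
      rw [← hcβ]
      omega
    have hU1 : (1 : ℝ) ≤ (((3 * n * la + 1) * nu * S2.card : ℕ) : ℝ) := by exact_mod_cast hUpos
    have hbase1 : (1 : ℝ) ≤ (((3 * n * la + 1) * nu * S2.card : ℕ) : ℝ) * max 1 ‖M‖ :=
      one_le_mul_of_one_le_of_one_le hU1 (le_max_left _ _)
    have hexp : (((R * n : ℕ) : ℝ)) / ((((3 * n * la + 1) * nu * S2.card : ℕ) : ℝ) -
        ((R * n : ℕ) : ℝ)) ≤ (4 : ℕ) := by
      rw [div_le_iff₀ (by linarith)]
      push_cast at h54 ⊢
      linarith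
    have hbase2 : (((3 * n * la + 1) * nu * S2.card : ℕ) : ℝ) * max 1 ‖M‖ ≤
        2 ^ (4 * n ^ 2 * la) * (G * bb n Q ^ (13 * n)) := by
      have h1 : max 1 ‖M‖ ≤ 2 ^ (n * (3 * n * la + 1)) * (G * bb n Q ^ (13 * n)) :=
        max_le (one_le_mul_of_one_le_of_one_le (one_le_pow₀ (by norm_num))
          (one_le_mul_of_one_le_of_one_le hG (one_le_pow₀ hb))) hMn
      have hexp2 : 4 + 2 * n + la + n * (3 * n * la + 1) ≤ 4 * n ^ 2 * la := by
        have h4 : 4 * n ^ 2 * la = n * (3 * n * la) + n ^ 2 * la := by ring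
        have h5 : 16 * la ≤ n ^ 2 * la := Nat.mul_le_mul_right _ (by nlinarith)
        nlinarith
      have h2 : (((3 * n * la + 1) * nu * S2.card : ℕ) : ℝ) ≤ 2 ^ (4 + 2 * n + la) := by
        rw [hU]
        have h3 : (la : ℝ) ≤ (2 : ℝ) ^ la := by exact_mod_cast Nat.lt_two_pow_self.le
        have h5 : (3 * (n : ℝ) * la + 1) * nu * (n * (5 * n + 3)) / 2 ≤ 16 * n ^ 4 * la := by
          have h6 : (3 * (n : ℝ) * la + 1) * nu ≤ (4 * n * la) * n := by
            refine mul_le_mul (by nlinarith) hnunR (by positivity) (by positivity)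
          have h7 : (n : ℝ) * (5 * n + 3) ≤ n * (8 * n) :=
            mul_le_mul_of_nonneg_left (by linarith) (by positivity)
          have h8 : (3 * (n : ℝ) * la + 1) * nu * (n * (5 * n + 3)) ≤
              (4 * n * la) * n * (n * (8 * n)) :=
            mul_le_mul h6 h7 (by positivity) (by positivity)
          nlinarith
        have h6 : (n : ℝ) ^ 4 ≤ 2 ^ (2 * n) := by
          have h7 : n ^ 4 ≤ 2 ^ (2 * n) := by
            calc n ^ 4 = (n ^ 2) ^ 2 := by ring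
              _ ≤ (2 ^ n) ^ 2 := Nat.pow_le_pow_left (sq_le_two_pow hn) 2
              _ = 2 ^ (2 * n) := by rw [← pow_mul]; ring_nf
          exact_mod_cast h7
        calc (3 * (n : ℝ) * la + 1) * nu * (n * (5 * n + 3)) / 2 ≤ 16 * n ^ 4 * la := h5
          _ ≤ 16 * (2 : ℝ) ^ (2 * n) * (2 : ℝ) ^ la := by
              refine mul_le_mul (mul_le_mul_of_nonneg_left h6 (by norm_num)) h3
                (by positivity) (by positivity)
          _ = 2 ^ (4 + 2 * n + la) := by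
              rw [pow_add, pow_add]; norm_num
      calc (((3 * n * la + 1) * nu * S2.card : ℕ) : ℝ) * max 1 ‖M‖ ≤
            2 ^ (4 + 2 * n + la) * (2 ^ (n * (3 * n * la + 1)) * (G * bb n Q ^ (13 * n))) :=
            mul_le_mul h2 h1 (by positivity) (by positivity)
        _ = 2 ^ (4 + 2 * n + la + n * (3 * n * la + 1)) * (G * bb n Q ^ (13 * n)) := by
            rw [pow_add (2 : ℝ) (4 + 2 * n + la)]; ring
        _ ≤ 2 ^ (4 * n ^ 2 * la) * (G * bb n Q ^ (13 * n)) := by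
            refine mul_le_mul_of_nonneg_right ?_ (by positivity)
            exact pow_le_pow_right₀ (by norm_num) hexp2
    calc ((((3 * n * la + 1) * nu * S2.card : ℕ) : ℝ) * max 1 ‖M‖) ^ ((((R * n : ℕ) : ℝ)) /
          ((((3 * n * la + 1) * nu * S2.card : ℕ) : ℝ) - ((R * n : ℕ) : ℝ)))
        ≤ ((((3 * n * la + 1) * nu * S2.card : ℕ) : ℝ) * max 1 ‖M‖) ^ (((4 : ℕ) : ℝ)) :=
          Real.rpow_le_rpow_of_exponent_le hbase1 hexp
      _ = ((((3 * n * la + 1) * nu * S2.card : ℕ) : ℝ) * max 1 ‖M‖) ^ 4 := Real.rpow_natCast _ _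
      _ ≤ (2 ^ (4 * n ^ 2 * la) * (G * bb n Q ^ (13 * n))) ^ 4 :=
          pow_le_pow_left₀ (by positivity) hbase2 4
  -- the array
  let A : ℕ → ℕ → ℕ → ℕ → ℤ := fun j i p q =>
    if h : (j < 3 * n * la + 1 ∧ i < nu) ∧ (⟨q, p⟩ : Σ _ : ℕ, ℕ) ∈ S2 then
      x ((⟨j, h.1.1⟩, ⟨i, h.1.2⟩), ⟨⟨q, p⟩, h.2⟩) else 0
  have hA : ∀ (j : Fin (3 * n * la + 1)) (i : Fin nu) (b : Σ _ : ℕ, ℕ) (h2 : b ∈ S2),
      A j i b.2 b.1 = x ((j, i), ⟨b, h2⟩) := by
    intro j i b h2
    exact dif_pos (⟨⟨j.2, i.2⟩, h2⟩ : ((j : ℕ) < 3 * n * la + 1 ∧ (i : ℕ) < nu) ∧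
      (⟨b.1, b.2⟩ : Σ _ : ℕ, ℕ) ∈ S2)
  have hA0 : ∀ j i p q, A j i p q ≠ 0 →
      (j < 3 * n * la + 1 ∧ i < nu) ∧ (⟨q, p⟩ : Σ _ : ℕ, ℕ) ∈ S2 := by
    intro j i p q h
    by_contra hc
    exact h (dif_neg hc)
  refine ⟨A, ?_, ?_, ?_, ?_⟩
  · have : ∃ c, x c ≠ 0 := by
      by_contra hc
      push Not at hc
      exact hx0 (funext hc)
    obtain ⟨⟨⟨j, i⟩, ⟨b, hb⟩⟩, hc⟩ := this
    exact ⟨j, i, b.2, b.1, by rw [hA j i b hb]; exact hc⟩
  · intro j i p q h
    have h1 := (hA0 j i p q h).1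
    have h2 := siegel_mem.1 (hA0 j i p q h).2
    simp only at h1 h2
    omega
  · intro j i p q
    by_cases h : (j < 3 * n * la + 1 ∧ i < nu) ∧ (⟨q, p⟩ : Σ _ : ℕ, ℕ) ∈ S2
    · have h1 : A j i p q = x ((⟨j, h.1.1⟩, ⟨i, h.1.2⟩), ⟨⟨q, p⟩, h.2⟩) := dif_pos h
      rw [h1, ← Int.norm_eq_abs]
      exact (norm_le_pi_norm x _).trans hxle
    · have h1 : A j i p q = 0 := dif_neg h
      rw [h1]
      simp only [Int.cast_zero, abs_zero]
      positivity
  · intro k l hkl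
    have hl : l < 6 * n + 1 := by
      by_contra hc
      push Not at hc
      have h1 : la * (6 * n + 1) ≤ la * l := Nat.mul_le_mul_left _ hc
      nlinarith
    have hk : k < TT n la - la * l := by omega
    apply O.coord_inj
    rw [map_zero]
    funext c
    have h1 : (M.mulVec x) (⟨⟨l, hl⟩, ⟨k, hk⟩⟩, c) = 0 := by rw [hMx]; rfl
    rw [Matrix.mulVec, dotProduct, Fintype.sum_prod_type, Fintype.sum_prod_type] at h1
    have hz2 : ∀ i j p q, n ≤ q → A i j p q = 0 := by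
      intro i j p q hj
      by_contra hc
      have := siegel_mem.1 (hA0 i j p q hc).2
      simp only at this
      omega
    have h2 : sa n nu (3 * n * la) A
          (fun j i => ((Nat.choose (nu * j + i) k : ℕ) : O.R) * an.g i)
          (fun p q => bc O br (3 * n) p q l) =
        ∑ j : Fin (3 * n * la + 1), ∑ i : Fin nu, ∑ b ∈ S2, A j i b.2 b.1 •
          (((Nat.choose (nu * j + i) k : ℕ) : O.R) * an.g i * bc O br (3 * n) b.2 b.1 l) := by
      unfold sa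
      rw [Finset.sum_range]
      refine sum_congr rfl fun j _ => ?_
      rw [Finset.sum_range]
      refine sum_congr rfl fun i _ => ?_
      rw [sum_siegelSet (n := n) (by omega) (fun p q => (A j i p q : O.R) *
        (((Nat.choose (nu * j + i) k : ℕ) : O.R) * an.g i * bc O br (3 * n) p q l))]
      · refine sum_congr rfl fun b _ => ?_
        rw [zsmul_eq_mul]
      · intro p q hq
        rw [hz2 _ _ _ _ hq, Int.cast_zero, zero_mul]
    rw [h2, map_sum, Finset.sum_apply, Pi.zero_apply, ← h1]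
    refine sum_congr rfl fun j _ => ?_
    rw [map_sum, Finset.sum_apply]
    refine sum_congr rfl fun i _ => ?_
    rw [map_sum, Finset.sum_apply, ← Finset.sum_coe_sort S2]
    refine sum_congr rfl fun b _ => ?_
    rw [map_zsmul, hA j i b.1 b.2]
    simp only [Pi.smul_apply, smul_eq_mul, M, Matrix.of_apply]
    rw [mul_comm]

end Pool.Agent.H97.AN
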