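import Pool.Agent.H8.KF.Stage1
import Pool.Agent.H97.AN.Defs

/-! # [AN-ST1] The Taylor coefficients at the anchor are small at the integer point

Adapt `Pool.Agent.H8.KF.stage1`. Put
`c p q = ∑_{j ≤ J, i < nu} A j i p q * choose (nu j + i) k * al^i` (`J = 3 n la`): zero unless
`p + q ≤ 3n`, `q < n`; `|c p q| ≤ M := (J+1) nu (Z 2^(nu (J+1)) 2)`. With
`L = (TT - k + la - 1) / la` (natural subtraction; `L = 0` if `k ≥ TT`) the expansion coefficients
of index `l < L` vanish by `hv`. `small_real` with the constant series `t = C (1/x)`,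
`z = C (y/x)`, `ρ = 1`, `τ = 1/|x|`, `T = L`, `m = 0`, `K = 0`:
`|evt (3n) c (1/x) (y/x)| ≤ (3n+1) M B⁴ (B⁴/|x|)^L`, `|x|^L ≥ X^(la L) ≥ X^(TT-k)`, `L ≤ 6n+1`,
`(3n+1) (J+1) nu 2^(nu(J+1)) 2 ≤ 2^(4 n² la)` (`la ≥ 8n`), `B^(4+4(6n+1)) ≤ B^(26n)`.
Finally `∑_{j,i} ev (3n) (A j i) x y * choose * al^i = x^(3n) * evt (3n) c (1/x) (y/x)`
(`evt_eq_ev` / `ev_eq_evt` in H72/ES, and swapping sums as in `st1_swap`, `st1_evt`). -/

namespace Pool.Agent.H97.AN

open Finset Polynomial Pool.Agent.H72.ES Pool.Agent.H8.KF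

variable {n Q : ℕ} {f : ℤ[X]} {θ : ℝ}

/-- swapping the two double sums -/
theorem sta_swap (n nu J : ℕ) (A : ℕ → ℕ → ℕ → ℕ → ℤ) (u v : ℕ → ℕ → ℝ) :
    ∑ p ∈ range (3 * n + 1), ∑ q ∈ range (3 * n + 1 - p),
      (∑ j ∈ range (J + 1), ∑ i ∈ range nu, ((A j i p q : ℤ) : ℝ) * u j i) * v p q =
    sa n nu J A u v := by
  unfold sa
  rw [sum_sigma', sum_sigma']
  have h1 : ∀ x : (Σ _ : ℕ, ℕ),
      (∑ j ∈ range (J + 1), ∑ i ∈ range nu, ((A j i x.1 x.2 : ℤ) : ℝ) * u j i) *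
        v x.1 x.2 = ∑ y ∈ (range (J + 1)).sigma fun _ => range nu,
          ((A y.1 y.2 x.1 x.2 : ℤ) : ℝ) * (u y.1 y.2 * v x.1 x.2) := by
    intro x
    rw [sum_sigma', sum_mul]
    exact sum_congr rfl fun y _ => by ring
  rw [sum_congr rfl fun x _ => h1 x, sum_comm]
  refine sum_congr rfl fun y _ => ?_
  rw [sum_sigma']

/-- swapping in the evaluated sum -/
theorem sta_evt (n nu J : ℕ) (A : ℕ → ℕ → ℕ → ℕ → ℤ) (u : ℕ → ℕ → ℝ) (t z : ℝ) :
    ∑ j ∈ range (J + 1), ∑ i ∈ range nu,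
      evt (3 * n) (fun p q => ((A j i p q : ℤ) : ℝ)) t z * u j i =
    evt (3 * n) (fun p q => ∑ j ∈ range (J + 1), ∑ i ∈ range nu,
      ((A j i p q : ℤ) : ℝ) * u j i) t z := by
  have h := sta_swap n nu J A u (fun p q => t ^ (3 * n - p - q) * z ^ q)
  unfold evt
  have h2 : ∑ p ∈ range (3 * n + 1), ∑ q ∈ range (3 * n + 1 - p),
      (∑ j ∈ range (J + 1), ∑ i ∈ range nu, ((A j i p q : ℤ) : ℝ) * u j i) *
        t ^ (3 * n - p - q) * z ^ q = ∑ p ∈ range (3 * n + 1), ∑ q ∈ range (3 * n + 1 - p),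
      (∑ j ∈ range (J + 1), ∑ i ∈ range nu, ((A j i p q : ℤ) : ℝ) * u j i) *
        (t ^ (3 * n - p - q) * z ^ q) :=
    sum_congr rfl fun p _ => sum_congr rfl fun q _ => by ring
  rw [h2, h]
  unfold sa
  refine sum_congr rfl fun i _ => sum_congr rfl fun j _ => ?_
  rw [sum_mul]
  refine sum_congr rfl fun p _ => ?_
  rw [sum_mul]
  exact sum_congr rfl fun q _ => by ring

/-- the numerical estimate -/
theorem sta_num {n nu la : ℕ} (hn : 4 ≤ n) (hnu : nu ≤ n) (hla : 8 * n ≤ la) :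
    (3 * n + 1) * ((3 * n * la + 1) * (nu * (2 ^ (nu * (3 * n * la + 1)) * 2))) ≤
      2 ^ (4 * n ^ 2 * la) := by
  have h1 : 3 * n + 1 ≤ 4 * n := by omega
  have h2 : 3 * n * la + 1 ≤ 4 * n * la := by nlinarith
  have h3 : nu * (3 * n * la + 1) ≤ 3 * n ^ 2 * la + n := by
    calc nu * (3 * n * la + 1) ≤ n * (3 * n * la + 1) := Nat.mul_le_mul_right _ hnu
      _ = 3 * n ^ 2 * la + n := by ring
  have h4 : 2 ^ (nu * (3 * n * la + 1)) ≤ 2 ^ (3 * n ^ 2 * la + n) :=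
    Nat.pow_le_pow_right (by norm_num) h3
  have h5 : n ≤ 2 ^ n := Nat.lt_two_pow_self.le
  have h6 : la ≤ 2 ^ la := Nat.lt_two_pow_self.le
  calc (3 * n + 1) * ((3 * n * la + 1) * (nu * (2 ^ (nu * (3 * n * la + 1)) * 2)))
      ≤ (4 * n) * ((4 * n * la) * (n * (2 ^ (3 * n ^ 2 * la + n) * 2))) := by gcongr
    _ = 2 ^ 5 * n * n * n * la * 2 ^ (3 * n ^ 2 * la + n) := by ring
    _ ≤ 2 ^ 5 * 2 ^ n * 2 ^ n * 2 ^ n * 2 ^ la * 2 ^ (3 * n ^ 2 * la + n) := by gcongr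
    _ = 2 ^ (5 + n + n + n + la + (3 * n ^ 2 * la + n)) := by simp only [pow_add]
    _ ≤ 2 ^ (4 * n ^ 2 * la) := by
        refine Nat.pow_le_pow_right (by norm_num) ?_
        have h7 : 16 ≤ n ^ 2 := by nlinarith
        have h8 : 16 * la ≤ n ^ 2 * la := Nat.mul_le_mul_right _ h7
        have h9 : 4 * n ^ 2 * la = 3 * n ^ 2 * la + n ^ 2 * la := by ring
        rw [h9]
        omega

theorem st1A (O : Ord ℝ n Q f θ) {F : ℕ → ℕ → ℤ} (hF : Norml n Q f F) (br : Branch O F)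
    {nu : ℕ} (h1 : 1 ≤ nu) (hnu : nu ≤ n) (la : ℕ) (hla : 8 * n ≤ la)
    (A : ℕ → ℕ → ℕ → ℕ → ℤ) (hA : SuppA n nu (3 * n * la) A) (Z : ℝ)
    (hZ : ∀ j i p q, |((A j i p q : ℤ) : ℝ)| ≤ Z) (al : ℝ) (hal0 : 0 ≤ al)
    (hal : ∀ i < nu, al ^ i ≤ 2)
    (hv : ∀ k l, k + la * l < TT n la →
      sa n nu (3 * n * la) A (fun j i => ((Nat.choose (nu * j + i) k : ℕ) : ℝ) * al ^ i)
        (fun p q => O.φ (bc O br (3 * n) p q l)) = 0)
    (x y : ℤ) (h2 : ev n F x y = 0) (hy : |(y : ℝ) / x - θ| ≤ 1 / bb n Q)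
    (hxb : bb n Q ^ 5 ≤ |(x : ℝ)|) (X : ℝ) (hX : 1 ≤ X) (hx : X ^ la ≤ |(x : ℝ)|) (k : ℕ) :
    |∑ j ∈ range (3 * n * la + 1), ∑ i ∈ range nu,
      ((spec n A x y j i : ℤ) : ℝ) * (((Nat.choose (nu * j + i) k : ℕ) : ℝ) * al ^ i)| *
        X ^ (TT n la - k) ≤
      |(x : ℝ)| ^ (3 * n) * (Z * 2 ^ (4 * n ^ 2 * la) * bb n Q ^ (26 * n)) := by
  have hn := hF.hn
  have hQ := hF.hQ
  have hb : 1 ≤ bb n Q := one_le_bb hn hQ
  have hb0 : 0 < bb n Q := by linarith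
  have hTT := st1_TT hn hla
  have hZ0 : 0 ≤ Z := (abs_nonneg _).trans (hZ 0 0 0 0)
  have hxpos : 0 < |(x : ℝ)| := lt_of_lt_of_le (by positivity) hxb
  have hx0 : (x : ℝ) ≠ 0 := abs_pos.1 hxpos
  set u : ℕ → ℕ → ℝ := fun j i => ((Nat.choose (nu * j + i) k : ℕ) : ℝ) * al ^ i with hu
  set c : ℕ → ℕ → ℝ := fun p q => ∑ j ∈ range (3 * n * la + 1),
    ∑ i ∈ range nu, ((A j i p q : ℤ) : ℝ) * u j i with hc
  -- the sum is `x^(3n)` times the homogenised value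
  have hsum : ∑ j ∈ range (3 * n * la + 1), ∑ i ∈ range nu,
      ((spec n A x y j i : ℤ) : ℝ) * (((Nat.choose (nu * j + i) k : ℕ) : ℝ) * al ^ i) =
      (x : ℝ) ^ (3 * n) * evt (3 * n) c (1 / (x : ℝ)) ((y : ℝ) / x) := by
    rw [hc, ← sta_evt, mul_sum]
    refine sum_congr rfl fun j _ => ?_
    rw [mul_sum]
    refine sum_congr rfl fun i _ => ?_
    have h1 : ((spec n A x y j i : ℤ) : ℝ) =
        (x : ℝ) ^ (3 * n) * evt (3 * n) (fun p q => ((A j i p q : ℤ) : ℝ)) (1 / (x : ℝ))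
          ((y : ℝ) / x) := by
      have h3 := ev_map (Int.castRingHom ℝ) (3 * n) (A j i) x y
      have h4 := ev_eq_evt (3 * n) (fun p q => ((A j i p q : ℤ) : ℝ)) (x : ℝ) (y : ℝ)
        (1 / (x : ℝ)) (by field_simp)
      rw [show (y : ℝ) / x = 1 / (x : ℝ) * y by field_simp, ← h4]
      exact h3
    rw [h1]
    ring
  rw [hsum, abs_mul, abs_pow]
  set B : ℝ := 2 ^ (nu * (3 * n * la + 1)) * 2 with hB
  have hB0 : 0 ≤ B := by positivity
  have hub : ∀ j ∈ range (3 * n * la + 1), ∀ i ∈ range nu, |u j i| ≤ B := by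
    intro j hj i hi
    rw [mem_range] at hj hi
    have ha : 0 ≤ al ^ i := pow_nonneg hal0 i
    have h1 : 0 ≤ u j i := by
      rw [hu]
      positivity
    rw [abs_of_nonneg h1, hu, hB]
    refine mul_le_mul ?_ (hal i hi) ha (by positivity)
    have h2 : Nat.choose (nu * j + i) k ≤ 2 ^ (nu * (3 * n * la + 1)) := by
      refine (Nat.choose_le_two_pow _ _).trans (Nat.pow_le_pow_right (by norm_num) ?_)
      have h3 : nu * (j + 1) ≤ nu * (3 * n * la + 1) := Nat.mul_le_mul_left _ (by omega)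
      rw [mul_add, mul_one] at h3
      omega
    exact_mod_cast h2
  set M : ℝ := (3 * n * la + 1) * (nu * (Z * B)) with hM
  have hcM : ∀ p q, |c p q| ≤ M := by
    intro p q
    rw [hc]
    refine (abs_sum_le_sum_abs _ _).trans ?_
    calc ∑ j ∈ range (3 * n * la + 1), |∑ i ∈ range nu, ((A j i p q : ℤ) : ℝ) * u j i| ≤
          ∑ _j ∈ range (3 * n * la + 1), nu * (Z * B) := by
          refine sum_le_sum fun j hj => ?_
          refine (abs_sum_le_sum_abs _ _).trans ?_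
          calc ∑ i ∈ range nu, |((A j i p q : ℤ) : ℝ) * u j i| ≤ ∑ _i ∈ range nu, Z * B := by
                refine sum_le_sum fun i hi => ?_
                rw [abs_mul]
                exact mul_le_mul (hZ _ _ _ _) (hub j hj i hi) (abs_nonneg _) hZ0
            _ = nu * (Z * B) := by rw [sum_const, card_range, nsmul_eq_mul]
      _ = M := by
          rw [sum_const, card_range, nsmul_eq_mul, hM]
          push_cast
          ring
  have hM0 : 0 ≤ M := (abs_nonneg _).trans (hcM 0 0)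
  have hcs : ∀ p q, c p q ≠ 0 → p + q ≤ 3 * n ∧ q ≤ n := by
    intro p q hne
    by_contra hcon
    apply hne
    rw [hc]
    refine sum_eq_zero fun j _ => sum_eq_zero fun i _ => ?_
    have h1 : A j i p q = 0 := by
      by_contra hne'
      have := (hA j i p q hne').2
      omega
    rw [h1]
    simp
  set L : ℕ := (TT n la - k + la - 1) / la with hL
  have hlapos : 0 < la := by omega
  have hL1 : TT n la - k ≤ la * L := by
    have h1 : TT n la - k + la - 1 < la * (L + 1) := by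
      rw [hL]
      exact Nat.lt_mul_div_succ _ hlapos
    rw [mul_add, mul_one] at h1
    omega
  have hL2 : ∀ l < L, k + la * l < TT n la := by
    intro l hl
    have h1 : la * (l + 1) ≤ la * L := Nat.mul_le_mul_left _ hl
    have h2 : la * L ≤ TT n la - k + la - 1 := by
      rw [hL]
      exact Nat.mul_div_le _ _
    rw [mul_add, mul_one] at h1
    omega
  have hL3 : L ≤ 6 * n + 1 := by
    rw [hL]
    have h1 : TT n la - k + la - 1 < (6 * n + 2) * la := by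
      have h3 : (6 * n + 2) * la = (6 * n + 1) * la + la := by ring
      omega
    have := Nat.div_lt_of_lt_mul (show TT n la - k + la - 1 < la * (6 * n + 2) by
      rw [mul_comm]; exact h1)
    omega
  have hwC : ∀ (K : ℕ) (a : ℝ), wn (fun a : ℝ => |a|) 1 K (PowerSeries.C a) = |a| :=
    fun K a => wn_C subMul_abs K a
  have hmain := small_real O hF br (PowerSeries.C (1 / (x : ℝ)))
    (PowerSeries.C ((y : ℝ) / x)) 1 one_pos (1 / |(x : ℝ)|)
    (fun K => by rw [hwC, abs_div, abs_one])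
    (by
      rw [one_div, inv_mul_le_iff₀ hxpos, mul_one]
      exact hxb)
    (fun K => by rw [← map_sub, hwC]; exact hy)
    (by
      have h1 : ev n (cst ℝ F) (x : ℝ) (y : ℝ) = 0 := by
        have h3 := congrArg (Int.castRingHom ℝ) h2
        rw [ev_map, map_zero] at h3
        exact h3
      have h4 := evt_eq_ev n (cst ℝ F) (x : ℝ) (y : ℝ) (1 / (x : ℝ))
        (by field_simp)
      rw [h1, mul_zero] at h4
      have h5 := congrArg (PowerSeries.C : ℝ →+* PowerSeries ℝ) h4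
      rw [evt_map, map_zero, cst_map] at h5
      rw [← h5]
      congr 1
      rw [div_eq_mul_one_div, mul_comm])
    (3 * n) c hcs M hcM L (fun _ => 0)
    (fun l hl => by
      have h3 := hv k l (hL2 l hl)
      rw [← sta_swap] at h3
      rw [h3, abs_zero]) 0
  simp only [zero_mul, sum_const_zero, zero_add] at hmain
  have hval : wn (fun a : ℝ => |a|) 1 0 (evt (3 * n) (fun i j => PowerSeries.C (c i j))
      (PowerSeries.C (1 / (x : ℝ))) (PowerSeries.C ((y : ℝ) / x))) =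
      |evt (3 * n) c (1 / (x : ℝ)) ((y : ℝ) / x)| := by
    have h1 := evt_map (PowerSeries.C : ℝ →+* PowerSeries ℝ) (3 * n) c (1 / (x : ℝ))
      ((y : ℝ) / x)
    rw [← h1, hwC]
  rw [hval] at hmain
  -- the final estimate
  set V := |evt (3 * n) c (1 / (x : ℝ)) ((y : ℝ) / x)| with hV
  have hXp : X ^ (TT n la - k) ≤ |(x : ℝ)| ^ L := by
    calc X ^ (TT n la - k) ≤ X ^ (la * L) := pow_le_pow_right₀ hX hL1
      _ = (X ^ la) ^ L := by rw [pow_mul]
      _ ≤ |(x : ℝ)| ^ L := pow_le_pow_left₀ (by positivity) hx L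
  have hnum2 : (((3 * n : ℕ) : ℝ) + 1) * M ≤ Z * 2 ^ (4 * n ^ 2 * la) := by
    have h1 : (3 * (n : ℝ) + 1) * ((3 * n * la + 1) *
        (nu * (2 ^ (nu * (3 * n * la + 1)) * 2))) ≤ 2 ^ (4 * n ^ 2 * la) := by
      exact_mod_cast sta_num hn hnu hla
    calc (((3 * n : ℕ) : ℝ) + 1) * M = Z * ((3 * (n : ℝ) + 1) * ((3 * n * la + 1) *
        (nu * (2 ^ (nu * (3 * n * la + 1)) * 2)))) := by
          rw [hM, hB]
          push_cast
          ring
      _ ≤ Z * 2 ^ (4 * n ^ 2 * la) := mul_le_mul_of_nonneg_left h1 hZ0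
  have hb4 : bb n Q ^ 4 * (bb n Q ^ 4) ^ L ≤ bb n Q ^ (26 * n) := by
    rw [← pow_mul, ← pow_add]
    exact pow_le_pow_right₀ hb (by omega)
  have hdiv : (1 / |(x : ℝ)| * bb n Q ^ 4) ^ L * |(x : ℝ)| ^ L = (bb n Q ^ 4) ^ L := by
    rw [← mul_pow]
    congr 1
    field_simp
  have hfin : V * X ^ (TT n la - k) ≤ Z * 2 ^ (4 * n ^ 2 * la) * bb n Q ^ (26 * n) := by
    calc V * X ^ (TT n la - k) ≤
          ((((3 * n : ℕ) : ℝ) + 1) * M * bb n Q ^ 4 * (1 / |(x : ℝ)| * bb n Q ^ 4) ^ L) *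
            |(x : ℝ)| ^ L := mul_le_mul hmain hXp (by positivity) (by positivity)
      _ = ((((3 * n : ℕ) : ℝ) + 1) * M) * (bb n Q ^ 4 *
            ((1 / |(x : ℝ)| * bb n Q ^ 4) ^ L * |(x : ℝ)| ^ L)) := by ring
      _ = ((((3 * n : ℕ) : ℝ) + 1) * M) * (bb n Q ^ 4 * (bb n Q ^ 4) ^ L) := by rw [hdiv]
      _ ≤ (Z * 2 ^ (4 * n ^ 2 * la)) * bb n Q ^ (26 * n) :=
          mul_le_mul hnum2 hb4 (by positivity) (by positivity)
  rw [mul_assoc]
  exact mul_le_mul_of_nonneg_left hfin (by positivity)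

end Pool.Agent.H97.AN
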