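import Pool.Agent.H97.AN.Defs

/-! # [AN-TAY] From the anchor to the point 1

`h = shp nu J a b c`. Over `ℝ`: `(hasseDeriv m h).eval al * al^m = b^J * S_m` with
`S_m = ∑_{j ≤ J, i < nu} c j i * choose (nu j + i) m * al^i` (each term:
`hasseDeriv m (X^N) = choose N m X^(N-m)`, zero if `m > N`; `a^j b^(J-j) al^(nu j + i) =
b^J al^i` because `a al^nu = b`). `taylor 1 h = taylor (1 - al) (taylor al h)` (`taylor_taylor`),
so the `k`-th coefficient is `∑_{m ≥ k} choose m k * (taylor al h).coeff m * (1 - al)^(m-k)`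
(`taylor_coeff`: `(taylor r f).coeff n = (hasseDeriv n f).eval r`; `hasseDeriv_apply`/`sum_over..`),
`m < D := nu (J+1)` (degree of `h` is `< nu (J+1)`).
`1/2 ≤ al ≤ 2` (`al^nu = b/a ∈ [1/2, 2]`), `|1 - al| ≤ |1 - al^nu| = |a - b|/a ≤ δ/a`
(`1 - al^nu = (1 - al)(1 + al + ..)`, the second factor is `≥ 1`).
Term `m`, times `a^(e-k)`: `choose m k ≤ 2^D`, `b^J ≤ (2a)^J`, `al^(-m) ≤ 2^D`,
`|S_m| ≤ U a^P / a^(T-m)`. If `m ≤ T`: the powers of `a` are
`J + P - (T - m) - (m - k) + (e - k) = 0`, `δ^(m-k) ≤ δ^T`. If `m > T`: they are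
`J + P - (m-k) + e - k = T - m`, and `δ^(m-k) ≤ δ^T δ^(m-T) ≤ δ^T a^(m-T)`. So each term is
`≤ 2^(2D+J) U δ^T`, and there are at most `D ≤ 2^D` terms. -/

namespace Pool.Agent.H97.AN

open Finset Polynomial Pool.Agent.H72.ES

theorem coeff_taylor_eq (g : ℝ[X]) (D : ℕ) (hg : g.natDegree < D) (x : ℝ) (k : ℕ) :
    (taylor x g).coeff k = ∑ m ∈ range D, (Nat.choose m k : ℝ) * g.coeff m * x ^ (m - k) := by
  rw [taylor_coeff]
  conv_lhs => rw [g.as_sum_range' D hg]
  rw [map_sum, eval_finsetSum]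
  refine sum_congr rfl fun m _ => ?_
  rw [hasseDeriv_monomial, eval_monomial]

/-- the polynomial over the reals -/
noncomputable def shpR (nu J : ℕ) (a b : ℤ) (c : ℕ → ℕ → ℤ) : ℝ[X] :=
  ∑ j ∈ range (J + 1), ∑ i ∈ range nu,
    monomial (nu * j + i) (((c j i : ℤ) : ℝ) * ((a : ℝ) ^ j * (b : ℝ) ^ (J - j)))

theorem shp_map (nu J : ℕ) (a b : ℤ) (c : ℕ → ℕ → ℤ) :
    (shp nu J a b c).map (Int.castRingHom ℝ) = shpR nu J a b c := by
  unfold shp shpR
  rw [Polynomial.map_sum]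
  refine sum_congr rfl fun j _ => ?_
  rw [Polynomial.map_sum]
  refine sum_congr rfl fun i _ => ?_
  rw [Polynomial.map_mul, map_C, Polynomial.map_pow, map_X, C_mul_X_pow_eq_monomial]
  simp

theorem shpR_natDegree {nu J : ℕ} (hnu : 1 ≤ nu) (a b : ℤ) (c : ℕ → ℕ → ℤ) :
    (shpR nu J a b c).natDegree < nu * (J + 1) := by
  have h : (shpR nu J a b c).natDegree ≤ nu * (J + 1) - 1 := by
    unfold shpR
    refine natDegree_sum_le_of_forall_le _ _ fun j hj => ?_
    refine natDegree_sum_le_of_forall_le _ _ fun i hi => ?_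
    refine (natDegree_monomial_le _).trans ?_
    rw [mem_range] at hi hj
    have h1 : nu * j ≤ nu * J := Nat.mul_le_mul_left _ (by omega)
    have h2 : nu * (J + 1) = nu * J + nu := by ring
    omega
  have h2 : 1 ≤ nu * (J + 1) := Nat.mul_pos hnu (Nat.succ_pos _)
  omega

theorem shpR_coeff {nu J : ℕ} {a b : ℤ} {al : ℝ} (hal : 0 < al) (hpow : (a : ℝ) * al ^ nu = b)
    (c : ℕ → ℕ → ℤ) (m : ℕ) :
    (taylor al (shpR nu J a b c)).coeff m * al ^ m = (b : ℝ) ^ J *
      ∑ j ∈ range (J + 1), ∑ i ∈ range nu,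
        ((c j i : ℤ) : ℝ) * (((Nat.choose (nu * j + i) m : ℕ) : ℝ) * al ^ i) := by
  rw [taylor_coeff]
  unfold shpR
  rw [map_sum, eval_finsetSum, sum_mul, mul_sum]
  refine sum_congr rfl fun j hj => ?_
  rw [map_sum, eval_finsetSum, sum_mul, mul_sum]
  refine sum_congr rfl fun i hi => ?_
  rw [hasseDeriv_monomial, eval_monomial]
  by_cases hm : m ≤ nu * j + i
  · have h1 : al ^ (nu * j + i - m) * al ^ m = (al ^ nu) ^ j * al ^ i := by
      rw [← pow_add, Nat.sub_add_cancel hm, pow_add, pow_mul]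
    have hj' : j ≤ J := Nat.lt_succ_iff.1 (mem_range.1 hj)
    have h2 : (b : ℝ) ^ J = (b : ℝ) ^ (J - j) * ((a : ℝ) ^ j * (al ^ nu) ^ j) := by
      rw [← mul_pow, hpow, ← pow_add, Nat.sub_add_cancel hj']
    rw [h2, mul_assoc _ (al ^ (nu * j + i - m)) (al ^ m), h1]
    ring
  · rw [Nat.choose_eq_zero_of_lt (by omega)]
    simp

theorem pow_key {T P e J k m : ℕ} (hT : J + P + e = T) (hk : k ≤ e) (hkm : k ≤ m) {a δ U S : ℝ}
    (ha : 1 ≤ a) (hδ1 : 1 ≤ δ) (hδa : δ ≤ a) (hU : 0 ≤ U) (hS0 : 0 ≤ S)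
    (hS : S * a ^ (T - m) ≤ U * a ^ P) :
    S * a ^ J * a ^ (e - k) * δ ^ (m - k) ≤ U * δ ^ T * a ^ (m - k) := by
  have ha0 : 0 < a := by linarith
  have hδ0 : 0 < δ := by linarith
  rcases le_total m T with hm | hm
  · -- `m ≤ T`
    have h1 : S * a ^ J * a ^ (e - k) ≤ U * a ^ (m - k) := by
      have h2 : S * a ^ J * a ^ (e - k) * a ^ P = S * a ^ (T - m) * a ^ (m - k) := by
        rw [mul_assoc, mul_assoc, mul_assoc, ← pow_add, ← pow_add, ← pow_add]
        congr 2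
        omega
      have h3 : S * a ^ J * a ^ (e - k) * a ^ P ≤ U * a ^ (m - k) * a ^ P := by
        rw [h2]
        calc S * a ^ (T - m) * a ^ (m - k) ≤ U * a ^ P * a ^ (m - k) :=
              mul_le_mul_of_nonneg_right hS (by positivity)
          _ = U * a ^ (m - k) * a ^ P := by ring
      exact le_of_mul_le_mul_right h3 (by positivity)
    have h4 : δ ^ (m - k) ≤ δ ^ T := pow_le_pow_right₀ hδ1 (by omega)
    calc S * a ^ J * a ^ (e - k) * δ ^ (m - k) ≤ U * a ^ (m - k) * δ ^ T :=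
          mul_le_mul h1 h4 (by positivity) (by positivity)
      _ = U * δ ^ T * a ^ (m - k) := by ring
  · -- `T ≤ m`
    have h0 : T - m = 0 := by omega
    rw [h0, pow_zero, mul_one] at hS
    have h1 : S * a ^ J * a ^ (e - k) ≤ U * a ^ (T - k) := by
      calc S * a ^ J * a ^ (e - k) ≤ U * a ^ P * a ^ J * a ^ (e - k) := by gcongr
        _ = U * a ^ (T - k) := by
          rw [mul_assoc, mul_assoc, ← pow_add, ← pow_add]
          congr 2
          omega
    have h2 : δ ^ (m - k) ≤ δ ^ T * a ^ (m - T) := by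
      calc δ ^ (m - k) ≤ δ ^ m := pow_le_pow_right₀ hδ1 (by omega)
        _ = δ ^ T * δ ^ (m - T) := by rw [← pow_add]; congr 1; omega
        _ ≤ δ ^ T * a ^ (m - T) := by gcongr
    calc S * a ^ J * a ^ (e - k) * δ ^ (m - k) ≤ U * a ^ (T - k) * (δ ^ T * a ^ (m - T)) :=
          mul_le_mul h1 h2 (by positivity) (by positivity)
      _ = U * δ ^ T * (a ^ (T - k) * a ^ (m - T)) := by ring
      _ = U * δ ^ T * a ^ (m - k) := by
          rw [← pow_add]
          congr 2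
          omega

theorem taylor_small {nu J T P e : ℕ} (hnu : 1 ≤ nu) (hT : J + P + e = T) {a b : ℤ} (ha : 1 ≤ a)
    (hb : 1 ≤ b) (δ : ℝ) (hδ1 : 1 ≤ δ) (hδ : |(b : ℝ) - a| ≤ δ) (hδa : 2 * δ ≤ a) (al : ℝ)
    (hal : 0 < al) (hpow : (a : ℝ) * al ^ nu = b) (c : ℕ → ℕ → ℤ) (U : ℝ) (hU : 0 ≤ U)
    (hS : ∀ m, |∑ j ∈ range (J + 1), ∑ i ∈ range nu,
      ((c j i : ℤ) : ℝ) * (((Nat.choose (nu * j + i) m : ℕ) : ℝ) * al ^ i)| *
        (a : ℝ) ^ (T - m) ≤ U * (a : ℝ) ^ P) (k : ℕ) (hk : k ≤ e) :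
    |((((taylor 1 (shp nu J a b c)).coeff k : ℤ)) : ℝ)| * (a : ℝ) ^ (e - k) ≤
      2 ^ (3 * (nu * (J + 1)) + J) * U * δ ^ T := by
  have haR : (1 : ℝ) ≤ a := by exact_mod_cast ha
  have hbR : (1 : ℝ) ≤ b := by exact_mod_cast hb
  have ha0 : (0 : ℝ) < a := by linarith
  have hδ0 : (0 : ℝ) < δ := by linarith
  have hab := abs_le.1 hδ
  set D := nu * (J + 1) with hD
  set H := shpR nu J a b c with hH
  set S : ℕ → ℝ := fun m => ∑ j ∈ range (J + 1), ∑ i ∈ range nu,
      ((c j i : ℤ) : ℝ) * (((Nat.choose (nu * j + i) m : ℕ) : ℝ) * al ^ i) with hSdef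
  -- the coefficient over the reals
  have h1 : ((((taylor 1 (shp nu J a b c)).coeff k : ℤ)) : ℝ) =
      ∑ m ∈ range D, (Nat.choose m k : ℝ) * (taylor al H).coeff m * (1 - al) ^ (m - k) := by
    have h2 : ((((taylor 1 (shp nu J a b c)).coeff k : ℤ)) : ℝ) = (taylor 1 H).coeff k := by
      have h3 : (taylor 1 H) = (taylor 1 (shp nu J a b c)).map (Int.castRingHom ℝ) := by
        rw [hH, ← shp_map, map_taylor]
        simp
      rw [h3, coeff_map]
      rfl
    rw [h2]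
    have h4 : taylor 1 H = taylor (1 - al) (taylor al H) := by
      rw [taylor_taylor, sub_add_cancel]
    rw [h4]
    exact coeff_taylor_eq _ D (by rw [natDegree_taylor]; exact shpR_natDegree hnu a b c) _ k
  -- bounds for `al`
  have hpow' : al ^ nu = b / a := by
    field_simp
    linarith
  have hlow : (1 : ℝ) / 2 ≤ al ^ nu := by
    rw [hpow', le_div_iff₀ ha0]
    linarith
  have hhigh : al ^ nu ≤ 2 := by
    rw [hpow', div_le_iff₀ ha0]
    linarith
  have hal2 : (1 : ℝ) / 2 ≤ al := by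
    by_contra hcon
    push Not at hcon
    have : al ^ nu ≤ al ^ 1 := pow_le_pow_of_le_one hal.le (by linarith) hnu
    rw [pow_one] at this
    linarith
  have h1al : |1 - al| ≤ δ / a := by
    have h2 : (1 - al) * ∑ i ∈ range nu, al ^ i = 1 - al ^ nu := by
      have := mul_neg_geom_sum al nu
      exact this
    have h3 : (1 : ℝ) ≤ ∑ i ∈ range nu, al ^ i := by
      calc (1 : ℝ) = al ^ 0 := by rw [pow_zero]
        _ ≤ ∑ i ∈ range nu, al ^ i :=
          single_le_sum (f := fun i => al ^ i) (fun i _ => by positivity) (mem_range.2 hnu)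
    have h4 : |1 - al| ≤ |1 - al ^ nu| := by
      rw [← h2, abs_mul]
      have h5 : (1 : ℝ) ≤ |∑ i ∈ range nu, al ^ i| := h3.trans (le_abs_self _)
      calc |1 - al| = |1 - al| * 1 := (mul_one _).symm
        _ ≤ |1 - al| * |∑ i ∈ range nu, al ^ i| :=
          mul_le_mul_of_nonneg_left h5 (abs_nonneg _)
    refine h4.trans ?_
    rw [hpow']
    have h6 : (1 : ℝ) - b / a = (a - b) / a := by field_simp
    rw [h6, abs_div, abs_of_pos ha0]
    refine div_le_div_of_nonneg_right ?_ ha0.le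
    rw [abs_sub_comm]
    exact hδ
  have hbJ : (b : ℝ) ^ J ≤ 2 ^ J * (a : ℝ) ^ J := by
    rw [← mul_pow]
    exact pow_le_pow_left₀ (by linarith) (by linarith) J
  -- each term
  have hterm : ∀ m ∈ range D,
      |(Nat.choose m k : ℝ) * (taylor al H).coeff m * (1 - al) ^ (m - k)| * (a : ℝ) ^ (e - k) ≤
        2 ^ (2 * D + J) * U * δ ^ T := by
    intro m hm
    have hmD : m < D := mem_range.1 hm
    by_cases hkm : k ≤ m
    · have hc : (Nat.choose m k : ℝ) ≤ 2 ^ D := by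
        have h2 : m.choose k ≤ 2 ^ m := Nat.choose_le_two_pow m k
        have h3 : 2 ^ m ≤ 2 ^ D := Nat.pow_le_pow_right (by norm_num) hmD.le
        exact_mod_cast h2.trans h3
      have hg : |(taylor al H).coeff m| ≤ 2 ^ D * (2 ^ J * (a : ℝ) ^ J) * |S m| := by
        have h2 : (taylor al H).coeff m * al ^ m = (b : ℝ) ^ J * S m := shpR_coeff hal hpow c m
        have h3 : |(taylor al H).coeff m| * al ^ m ≤ (2 ^ J * (a : ℝ) ^ J) * |S m| := by
          rw [← abs_of_pos (pow_pos hal m), ← abs_mul, h2, abs_mul,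
            abs_of_nonneg (by positivity : (0 : ℝ) ≤ (b : ℝ) ^ J)]
          exact mul_le_mul_of_nonneg_right hbJ (abs_nonneg _)
        have h4 : (1 : ℝ) ≤ 2 ^ D * al ^ m := by
          have h5 : ((1 : ℝ) / 2) ^ m ≤ al ^ m := pow_le_pow_left₀ (by norm_num) hal2 m
          have h6 : (2 : ℝ) ^ m ≤ 2 ^ D := pow_le_pow_right₀ (by norm_num) hmD.le
          calc (1 : ℝ) = 2 ^ m * (1 / 2) ^ m := by rw [← mul_pow]; norm_num
            _ ≤ 2 ^ D * al ^ m := mul_le_mul h6 h5 (by positivity) (by positivity)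
        calc |(taylor al H).coeff m| = |(taylor al H).coeff m| * 1 := (mul_one _).symm
          _ ≤ |(taylor al H).coeff m| * (2 ^ D * al ^ m) :=
            mul_le_mul_of_nonneg_left h4 (abs_nonneg _)
          _ = 2 ^ D * (|(taylor al H).coeff m| * al ^ m) := by ring
          _ ≤ 2 ^ D * ((2 ^ J * (a : ℝ) ^ J) * |S m|) :=
            mul_le_mul_of_nonneg_left h3 (by positivity)
          _ = 2 ^ D * (2 ^ J * (a : ℝ) ^ J) * |S m| := by ring
      have hx : |(1 - al) ^ (m - k)| ≤ (δ / a) ^ (m - k) := by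
        rw [abs_pow]
        exact pow_le_pow_left₀ (abs_nonneg _) h1al _
      have hkey := pow_key (m := m) hT hk hkm haR hδ1 (by linarith) hU (abs_nonneg (S m)) (hS m)
      rw [abs_mul, abs_mul, abs_of_nonneg (Nat.cast_nonneg _)]
      calc (Nat.choose m k : ℝ) * |(taylor al H).coeff m| * |(1 - al) ^ (m - k)| *
              (a : ℝ) ^ (e - k)
          ≤ 2 ^ D * (2 ^ D * (2 ^ J * (a : ℝ) ^ J) * |S m|) * (δ / a) ^ (m - k) *
              (a : ℝ) ^ (e - k) := by gcongr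
        _ = 2 ^ (2 * D + J) * ((|S m| * (a : ℝ) ^ J * (a : ℝ) ^ (e - k) * δ ^ (m - k)) /
              (a : ℝ) ^ (m - k)) := by
            rw [div_pow, pow_add, two_mul, pow_add]
            ring
        _ ≤ 2 ^ (2 * D + J) * (U * δ ^ T) := by
            refine mul_le_mul_of_nonneg_left ?_ (by positivity)
            rw [div_le_iff₀ (by positivity)]
            exact hkey
        _ = 2 ^ (2 * D + J) * U * δ ^ T := by ring
    · rw [Nat.choose_eq_zero_of_lt (by omega)]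
      simp only [Nat.cast_zero, zero_mul, abs_zero]
      positivity
  rw [h1]
  calc |∑ m ∈ range D, (Nat.choose m k : ℝ) * (taylor al H).coeff m * (1 - al) ^ (m - k)| *
        (a : ℝ) ^ (e - k)
      ≤ (∑ m ∈ range D, |(Nat.choose m k : ℝ) * (taylor al H).coeff m *
          (1 - al) ^ (m - k)|) * (a : ℝ) ^ (e - k) :=
        mul_le_mul_of_nonneg_right (abs_sum_le_sum_abs _ _) (by positivity)
    _ = ∑ m ∈ range D, |(Nat.choose m k : ℝ) * (taylor al H).coeff m *
          (1 - al) ^ (m - k)| * (a : ℝ) ^ (e - k) := by rw [sum_mul]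
    _ ≤ ∑ _m ∈ range D, 2 ^ (2 * D + J) * U * δ ^ T := sum_le_sum hterm
    _ = D * (2 ^ (2 * D + J) * U * δ ^ T) := by rw [sum_const, card_range, nsmul_eq_mul]
    _ ≤ 2 ^ D * (2 ^ (2 * D + J) * U * δ ^ T) := by
        refine mul_le_mul_of_nonneg_right ?_ (by positivity)
        exact_mod_cast (Nat.lt_two_pow_self (n := D)).le
    _ = 2 ^ (3 * D + J) * U * δ ^ T := by
        rw [← mul_assoc, ← mul_assoc, ← pow_add]
        congr 3
        ring

end Pool.Agent.H97.AN
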