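import Pool.Agent.H97.AN.Defs

/-! # [AN-SHAPE] Shape polynomials -/

namespace Pool.Agent.H97.AN

open Finset Polynomial

/-- `N` is a shape polynomial with coefficient sum at most `H` -/
def Sh (nu : ℕ) (a b : ℤ) (M : ℕ) (H : ℝ) (N : ℤ[X]) : Prop :=
  ∃ c : ℕ → ℕ → ℤ, N = shp nu M a b c ∧
    ∑ j ∈ range (M + 1), ∑ i ∈ range nu, |((c j i : ℤ) : ℝ)| ≤ H

variable {nu : ℕ} {a b : ℤ}

theorem shp_add (M : ℕ) (c c' : ℕ → ℕ → ℤ) :
    shp nu M a b (fun j i => c j i + c' j i) = shp nu M a b c + shp nu M a b c' := by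
  unfold shp
  rw [← sum_add_distrib]
  refine sum_congr rfl fun j _ => ?_
  rw [← sum_add_distrib]
  refine sum_congr rfl fun i _ => ?_
  rw [add_mul, map_add, add_mul]

theorem shp_smul (M : ℕ) (e : ℤ) (c : ℕ → ℕ → ℤ) :
    shp nu M a b (fun j i => e * c j i) = e • shp nu M a b c := by
  unfold shp
  rw [smul_sum]
  refine sum_congr rfl fun j _ => ?_
  rw [smul_sum]
  refine sum_congr rfl fun i _ => ?_
  rw [mul_assoc e, map_mul, zsmul_eq_mul, mul_assoc]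
  simp

theorem shp_zero (M : ℕ) : shp nu M a b (fun _ _ => 0) = 0 := by
  unfold shp
  simp

theorem shp_sum {ι : Type} (s : Finset ι) (M : ℕ) (A : ι → ℕ → ℕ → ℤ) (μ : ι → ℤ) :
    shp nu M a b (fun j i => ∑ m ∈ s, μ m * A m j i) = ∑ m ∈ s, μ m • shp nu M a b (A m) := by
  classical
  induction s using Finset.induction_on with
  | empty => simp only [sum_empty]; exact shp_zero M
  | insert m s hm ih =>
    simp only [sum_insert hm]
    rw [shp_add M (fun j i => μ m * A m j i) (fun j i => ∑ m ∈ s, μ m * A m j i), ih, shp_smul]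

theorem Sh.mono {M : ℕ} {H H' : ℝ} {N : ℤ[X]} (h : Sh nu a b M H N) (hH : H ≤ H') :
    Sh nu a b M H' N := by
  obtain ⟨c, h1, h2⟩ := h
  exact ⟨c, h1, h2.trans hH⟩

theorem Sh.zero (M : ℕ) : Sh nu a b M 0 0 :=
  ⟨fun _ _ => 0, (shp_zero M).symm, by simp⟩

theorem Sh.add {M : ℕ} {H H' : ℝ} {N N' : ℤ[X]} (h : Sh nu a b M H N) (h' : Sh nu a b M H' N') :
    Sh nu a b M (H + H') (N + N') := by
  obtain ⟨c, h1, h2⟩ := h
  obtain ⟨c', h1', h2'⟩ := h'
  refine ⟨fun j i => c j i + c' j i, ?_, ?_⟩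
  · rw [shp_add, h1, h1']
  · refine le_trans ?_ (add_le_add h2 h2')
    rw [← sum_add_distrib]
    refine sum_le_sum fun j _ => ?_
    rw [← sum_add_distrib]
    refine sum_le_sum fun i _ => ?_
    push_cast
    exact abs_add_le _ _

theorem Sh.neg {M : ℕ} {H : ℝ} {N : ℤ[X]} (h : Sh nu a b M H N) : Sh nu a b M H (-N) := by
  obtain ⟨c, h1, h2⟩ := h
  refine ⟨fun j i => (-1) * c j i, ?_, ?_⟩
  · rw [shp_smul, h1, neg_one_smul]
  · refine le_trans (le_of_eq ?_) h2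
    refine sum_congr rfl fun j _ => sum_congr rfl fun i _ => ?_
    push_cast
    rw [abs_mul, abs_neg, abs_one, one_mul]

theorem Sh.sum {ι : Type*} (s : Finset ι) {M : ℕ} (H : ι → ℝ) (N : ι → ℤ[X])
    (h : ∀ m ∈ s, Sh nu a b M (H m) (N m)) : Sh nu a b M (∑ m ∈ s, H m) (∑ m ∈ s, N m) := by
  classical
  induction s using Finset.induction_on with
  | empty => simp only [sum_empty]; exact Sh.zero M
  | insert m s hm ih =>
    rw [sum_insert hm, sum_insert hm]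
    exact (h m (mem_insert_self m s)).add (ih fun m' hm' => h m' (mem_insert_of_mem hm'))

theorem Sh.monomial {M j i : ℕ} (hj : j ≤ M) (hi : i < nu) (e : ℤ) :
    Sh nu a b M |(e : ℝ)| (C (e * (a ^ j * b ^ (M - j))) * X ^ (nu * j + i)) := by
  classical
  refine ⟨fun j' i' => if j' = j ∧ i' = i then e else 0, ?_, ?_⟩
  · unfold shp
    rw [sum_eq_single_of_mem j (mem_range.2 (by omega))]
    · rw [sum_eq_single_of_mem i (mem_range.2 hi)]
      · simp
      · intro i' _ hi'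
        simp [hi']
    · intro j' _ hj'
      refine sum_eq_zero fun i' _ => ?_
      simp [hj']
  · rw [sum_eq_single_of_mem j (mem_range.2 (by omega))]
    · rw [sum_eq_single_of_mem i (mem_range.2 hi)]
      · simp
      · intro i' _ hi'
        simp [hi']
    · intro j' _ hj'
      refine sum_eq_zero fun i' _ => ?_
      simp [hj']

theorem Sh.nonneg {M : ℕ} {H : ℝ} {N : ℤ[X]} (h : Sh nu a b M H N) : 0 ≤ H := by
  obtain ⟨c, _, h2⟩ := h
  exact le_trans (sum_nonneg fun j _ => sum_nonneg fun i _ => abs_nonneg _) h2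

/-- product of two monomials of shape type -/
theorem Sh.mul_monomial (ha : 1 ≤ a) (hb : 1 ≤ b) {M1 M2 j1 j2 i1 i2 : ℕ} (hj1 : j1 ≤ M1)
    (hi1 : i1 < nu) (hj2 : j2 ≤ M2) (hi2 : i2 < nu) (e1 e2 : ℤ) :
    Sh nu a b (M1 + M2 + 1) (max (a : ℝ) b * (|(e1 : ℝ)| * |(e2 : ℝ)|))
      (C (a * b) * ((C (e1 * (a ^ j1 * b ^ (M1 - j1))) * X ^ (nu * j1 + i1)) *
        (C (e2 * (a ^ j2 * b ^ (M2 - j2))) * X ^ (nu * j2 + i2)))) := by
  have haR : (1 : ℝ) ≤ a := by exact_mod_cast ha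
  have hbR : (1 : ℝ) ≤ b := by exact_mod_cast hb
  obtain ⟨k1, rfl⟩ : ∃ k, M1 = j1 + k := ⟨M1 - j1, by omega⟩
  obtain ⟨k2, rfl⟩ : ∃ k, M2 = j2 + k := ⟨M2 - j2, by omega⟩
  rcases Nat.lt_or_ge (i1 + i2) nu with h | h
  · have h1 := Sh.monomial (nu := nu) (a := a) (b := b) (M := j1 + k1 + (j2 + k2) + 1)
      (j := j1 + j2) (i := i1 + i2) (by omega) h (a * (e1 * e2))
    have h2 : C (a * (e1 * e2) * (a ^ (j1 + j2) * b ^ (j1 + k1 + (j2 + k2) + 1 - (j1 + j2)))) *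
        X ^ (nu * (j1 + j2) + (i1 + i2)) =
        C (a * b) * ((C (e1 * (a ^ j1 * b ^ (j1 + k1 - j1))) * X ^ (nu * j1 + i1)) *
        (C (e2 * (a ^ j2 * b ^ (j2 + k2 - j2))) * X ^ (nu * j2 + i2))) := by
      have e1' : j1 + k1 + (j2 + k2) + 1 - (j1 + j2) = k1 + k2 + 1 := by omega
      have e2' : j1 + k1 - j1 = k1 := by omega
      have e3' : j2 + k2 - j2 = k2 := by omega
      rw [e1', e2', e3']
      simp only [map_mul, map_pow]
      ring
    rw [← h2]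
    refine h1.mono ?_
    push_cast
    rw [abs_mul, abs_mul, abs_of_pos (by linarith : (0 : ℝ) < a)]
    exact mul_le_mul_of_nonneg_right (le_max_left _ _) (by positivity)
  · have h1 := Sh.monomial (nu := nu) (a := a) (b := b) (M := j1 + k1 + (j2 + k2) + 1)
      (j := j1 + j2 + 1) (i := i1 + i2 - nu) (by omega) (by omega) (b * (e1 * e2))
    have h2 : C (b * (e1 * e2) * (a ^ (j1 + j2 + 1) *
        b ^ (j1 + k1 + (j2 + k2) + 1 - (j1 + j2 + 1)))) *
        X ^ (nu * (j1 + j2 + 1) + (i1 + i2 - nu)) =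
        C (a * b) * ((C (e1 * (a ^ j1 * b ^ (j1 + k1 - j1))) * X ^ (nu * j1 + i1)) *
        (C (e2 * (a ^ j2 * b ^ (j2 + k2 - j2))) * X ^ (nu * j2 + i2))) := by
      have e1' : j1 + k1 + (j2 + k2) + 1 - (j1 + j2 + 1) = k1 + k2 := by omega
      have e2' : j1 + k1 - j1 = k1 := by omega
      have e3' : j2 + k2 - j2 = k2 := by omega
      have e4' : nu * (j1 + j2 + 1) + (i1 + i2 - nu) = nu * j1 + i1 + (nu * j2 + i2) := by
        have : nu * (j1 + j2 + 1) = nu * j1 + nu * j2 + nu := by ring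
        omega
      rw [e1', e2', e3', e4', pow_add X (nu * j1 + i1)]
      simp only [map_mul, map_pow]
      ring
    rw [← h2]
    refine h1.mono ?_
    push_cast
    rw [abs_mul, abs_mul, abs_of_pos (by linarith : (0 : ℝ) < b)]
    exact mul_le_mul_of_nonneg_right (le_max_right _ _) (by positivity)

theorem Sh.mul (ha : 1 ≤ a) (hb : 1 ≤ b) {M1 M2 : ℕ} {H1 H2 : ℝ} {N1 N2 : ℤ[X]}
    (h1 : Sh nu a b M1 H1 N1) (h2 : Sh nu a b M2 H2 N2) :
    Sh nu a b (M1 + M2 + 1) (max (a : ℝ) b * (H1 * H2)) (C (a * b) * (N1 * N2)) := by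
  have haR : (1 : ℝ) ≤ a := by exact_mod_cast ha
  have hm0 : (0 : ℝ) ≤ max (a : ℝ) b := le_trans (by linarith) (le_max_left _ _)
  have hH2 := h2.nonneg
  obtain ⟨c1, rfl, hc1⟩ := h1
  obtain ⟨c2, rfl, hc2⟩ := h2
  have key : C (a * b) * (shp nu M1 a b c1 * shp nu M2 a b c2) =
      ∑ j1 ∈ range (M1 + 1), ∑ i1 ∈ range nu, ∑ j2 ∈ range (M2 + 1), ∑ i2 ∈ range nu,
        C (a * b) * ((C (c1 j1 i1 * (a ^ j1 * b ^ (M1 - j1))) * X ^ (nu * j1 + i1)) *
        (C (c2 j2 i2 * (a ^ j2 * b ^ (M2 - j2))) * X ^ (nu * j2 + i2))) := by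
    unfold shp
    rw [sum_mul, mul_sum]
    refine sum_congr rfl fun j1 _ => ?_
    rw [sum_mul, mul_sum]
    refine sum_congr rfl fun i1 _ => ?_
    rw [mul_sum, mul_sum]
    refine sum_congr rfl fun j2 _ => ?_
    rw [mul_sum, mul_sum]
  rw [key]
  have hS : Sh nu a b (M1 + M2 + 1) (∑ j1 ∈ range (M1 + 1), ∑ i1 ∈ range nu,
      ∑ j2 ∈ range (M2 + 1), ∑ i2 ∈ range nu,
        max (a : ℝ) b * (|((c1 j1 i1 : ℤ) : ℝ)| * |((c2 j2 i2 : ℤ) : ℝ)|))
      (∑ j1 ∈ range (M1 + 1), ∑ i1 ∈ range nu, ∑ j2 ∈ range (M2 + 1), ∑ i2 ∈ range nu,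
        C (a * b) * ((C (c1 j1 i1 * (a ^ j1 * b ^ (M1 - j1))) * X ^ (nu * j1 + i1)) *
        (C (c2 j2 i2 * (a ^ j2 * b ^ (M2 - j2))) * X ^ (nu * j2 + i2)))) := by
    refine Sh.sum _ _ _ fun j1 hj1 => Sh.sum _ _ _ fun i1 hi1 => Sh.sum _ _ _ fun j2 hj2 =>
      Sh.sum _ _ _ fun i2 hi2 => ?_
    rw [mem_range] at hj1 hi1 hj2 hi2
    exact Sh.mul_monomial ha hb (by omega) hi1 (by omega) hi2 _ _
  refine hS.mono ?_
  have h3 : (∑ j1 ∈ range (M1 + 1), ∑ i1 ∈ range nu,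
      ∑ j2 ∈ range (M2 + 1), ∑ i2 ∈ range nu,
        max (a : ℝ) b * (|((c1 j1 i1 : ℤ) : ℝ)| * |((c2 j2 i2 : ℤ) : ℝ)|)) =
      max (a : ℝ) b * ((∑ j ∈ range (M1 + 1), ∑ i ∈ range nu, |((c1 j i : ℤ) : ℝ)|) *
        ∑ j ∈ range (M2 + 1), ∑ i ∈ range nu, |((c2 j i : ℤ) : ℝ)|) := by
    rw [sum_mul, mul_sum]
    refine sum_congr rfl fun j1 _ => ?_
    rw [sum_mul, mul_sum]
    refine sum_congr rfl fun i1 _ => ?_
    rw [mul_sum, mul_sum]
    refine sum_congr rfl fun j2 _ => ?_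
    rw [mul_sum, mul_sum]
  rw [h3]
  refine mul_le_mul_of_nonneg_left ?_ hm0
  refine mul_le_mul hc1 hc2 (sum_nonneg fun j _ => sum_nonneg fun i _ => abs_nonneg _) ?_
  exact le_trans (sum_nonneg fun j _ => sum_nonneg fun i _ => abs_nonneg _) hc1

theorem Sh.prod (hnu : 1 ≤ nu) (ha : 1 ≤ a) (hb : 1 ≤ b) {J : ℕ} {H : ℝ} (r : ℕ)
    (N : Fin r → ℤ[X]) (h : ∀ i, Sh nu a b J H (N i)) :
    Sh nu a b (r * (J + 1)) (max (a : ℝ) b ^ r * H ^ r) (C (a * b) ^ r * ∏ i, N i) := by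
  induction r with
  | zero =>
    have h1 := Sh.monomial (nu := nu) (a := a) (b := b) (M := 0) (j := 0) (i := 0) le_rfl
      (by omega) 1
    simpa using h1
  | succ r ih =>
    have h1 := Sh.mul ha hb (h 0) (ih (fun i => N i.succ) fun i => h i.succ)
    rw [Fin.prod_univ_succ]
    have e1 : J + r * (J + 1) + 1 = (r + 1) * (J + 1) := by ring
    rw [e1] at h1
    have e2 : C (a * b) * (N 0 * (C (a * b) ^ r * ∏ i : Fin r, N i.succ)) =
        C (a * b) ^ (r + 1) * (N 0 * ∏ i : Fin r, N i.succ) := by ring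
    rw [e2] at h1
    refine h1.mono (le_of_eq ?_)
    ring

theorem Sh.det (hnu : 1 ≤ nu) (ha : 1 ≤ a) (hb : 1 ≤ b) {J : ℕ} {H : ℝ} (r : ℕ)
    (N : Matrix (Fin r) (Fin r) ℤ[X]) (h : ∀ i l, Sh nu a b J H (N i l)) :
    Sh nu a b (r * (J + 1)) (r.factorial * (max (a : ℝ) b ^ r * H ^ r))
      (C (a * b) ^ r * N.det) := by
  classical
  rw [Matrix.det_apply, mul_sum]
  have h1 : Sh nu a b (r * (J + 1)) (∑ _σ : Equiv.Perm (Fin r), (max (a : ℝ) b ^ r * H ^ r))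
      (∑ σ : Equiv.Perm (Fin r), C (a * b) ^ r * (Equiv.Perm.sign σ • ∏ i, N (σ i) i)) := by
    refine Sh.sum _ _ _ fun σ _ => ?_
    have h2 := Sh.prod hnu ha hb r (fun i => N (σ i) i) (fun i => h (σ i) i)
    rcases Int.units_eq_one_or (Equiv.Perm.sign σ) with h3 | h3
    · rw [h3, one_smul]
      exact h2
    · rw [h3, Units.neg_smul, one_smul, mul_neg]
      exact h2.neg
  refine h1.mono (le_of_eq ?_)
  rw [sum_const, card_univ, Fintype.card_perm, Fintype.card_fin, nsmul_eq_mul]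

/-- the Euler operator `X d/dX` -/
noncomputable def th (p : ℤ[X]) : ℤ[X] := X * derivative p

theorem th_shp (M : ℕ) (c : ℕ → ℕ → ℤ) :
    th (shp nu M a b c) = shp nu M a b (fun j i => ((nu * j + i : ℕ) : ℤ) * c j i) := by
  unfold th shp
  rw [derivative_sum, mul_sum]
  refine sum_congr rfl fun j _ => ?_
  rw [derivative_sum, mul_sum]
  refine sum_congr rfl fun i _ => ?_
  rw [derivative_C_mul_X_pow]
  beta_reduce
  rcases Nat.eq_zero_or_pos (nu * j + i) with h | h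
  · rw [h]; simp
  · obtain ⟨m, hm⟩ : ∃ m, nu * j + i = m + 1 := ⟨nu * j + i - 1, by omega⟩
    rw [hm]
    simp only [Nat.add_sub_cancel, map_mul, map_natCast]
    ring

theorem Sh.th {M : ℕ} {H : ℝ} {N : ℤ[X]} (h : Sh nu a b M H N) :
    Sh nu a b M ((nu * (M + 1) : ℝ) * H) (th N) := by
  obtain ⟨c, rfl, h2⟩ := h
  refine ⟨_, th_shp M c, ?_⟩
  refine le_trans ?_ (mul_le_mul_of_nonneg_left h2 (by positivity))
  rw [mul_sum]
  refine sum_le_sum fun j hj => ?_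
  rw [mul_sum]
  refine sum_le_sum fun i hi => ?_
  rw [mem_range] at hj hi
  push_cast
  rw [abs_mul]
  refine mul_le_mul_of_nonneg_right ?_ (abs_nonneg _)
  rw [abs_of_nonneg (by positivity)]
  have h3 : nu * j + i ≤ nu * (M + 1) := by
    have : nu * (j + 1) ≤ nu * (M + 1) := Nat.mul_le_mul_left _ (by omega)
    have e : nu * (j + 1) = nu * j + nu := by ring
    omega
  exact_mod_cast h3

theorem Sh.iter {M : ℕ} {H : ℝ} {N : ℤ[X]} (h : Sh nu a b M H N) (s : ℕ) :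
    Sh nu a b M ((nu * (M + 1) : ℝ) ^ s * H) (AN.th^[s] N) := by
  induction s with
  | zero => simpa using h
  | succ s ih =>
    rw [Function.iterate_succ_apply']
    refine ih.th.mono (le_of_eq ?_)
    ring

theorem th_add (p q : ℤ[X]) : th (p + q) = th p + th q := by
  unfold th
  rw [derivative_add, mul_add]

theorem th_smul (e : ℤ) (p : ℤ[X]) : th (e • p) = e • th p := by
  unfold th
  rw [derivative_smul, mul_smul_comm]

theorem th_sum {ι : Type*} (s : Finset ι) (p : ι → ℤ[X]) :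
    th (∑ i ∈ s, p i) = ∑ i ∈ s, th (p i) := by
  unfold th
  rw [derivative_sum, mul_sum]

theorem iter_th_smul (e : ℤ) (p : ℤ[X]) (s : ℕ) : th^[s] (e • p) = e • th^[s] p := by
  induction s with
  | zero => rfl
  | succ s ih => rw [Function.iterate_succ_apply', Function.iterate_succ_apply', ih, th_smul]

theorem iter_th_sum {ι : Type*} (t : Finset ι) (p : ι → ℤ[X]) (s : ℕ) :
    th^[s] (∑ i ∈ t, p i) = ∑ i ∈ t, th^[s] (p i) := by
  induction s with
  | zero => rfl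
  | succ s ih =>
    rw [Function.iterate_succ_apply', ih, th_sum]
    exact sum_congr rfl fun i _ => (Function.iterate_succ_apply' _ _ _).symm

theorem th_dvd {m : ℕ} {p : ℤ[X]} (h : (X - 1 : ℤ[X]) ^ (m + 1) ∣ p) :
    (X - 1 : ℤ[X]) ^ m ∣ th p := by
  obtain ⟨q, rfl⟩ := h
  unfold th
  rw [derivative_mul, derivative_pow]
  refine Dvd.dvd.mul_left ?_ _
  refine dvd_add ?_ ?_
  · have : derivative (X - 1 : ℤ[X]) = 1 := by simp
    rw [this, mul_one, Nat.add_sub_cancel, mul_assoc]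
    refine Dvd.dvd.mul_left ?_ _
    exact Dvd.intro _ rfl
  · rw [pow_succ, mul_assoc]
    exact Dvd.intro _ rfl

theorem iter_th_dvd {K : ℕ} {p : ℤ[X]} (h : (X - 1 : ℤ[X]) ^ K ∣ p) (s : ℕ) :
    (X - 1 : ℤ[X]) ^ (K - s) ∣ th^[s] p := by
  induction s with
  | zero => simpa using h
  | succ s ih =>
    rw [Function.iterate_succ_apply']
    rcases Nat.lt_or_ge s K with hs | hs
    · refine th_dvd ?_
      rw [show K - (s + 1) + 1 = K - s by omega]
      exact ih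
    · rw [show K - (s + 1) = 0 by omega, pow_zero]
      exact one_dvd _

end Pool.Agent.H97.AN
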