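import Pool.Agent.H97.AN.LemZ
import Pool.Agent.H97.AN.Shape
import Pool.Agent.H8.KF.MultG

/-! # [AN-ZE] The zero estimate -/

namespace Pool.Agent.H97.AN

open Finset Polynomial Pool.Agent.H72.ES Pool.Agent.H8.KF

/-- expansion at `1`: substitute `1 + X` and pass to power series -/
noncomputable def Phi : ℤ[X] →+* PowerSeries ℤ :=
  (Polynomial.coeToPowerSeries.ringHom (R := ℤ)).comp (Polynomial.compRingHom (1 + X))

theorem Phi_apply (p : ℤ[X]) : Phi p = ((p.comp (1 + X) : ℤ[X]) : PowerSeries ℤ) := rfl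

theorem Phi_inj : Function.Injective Phi := by
  rw [injective_iff_map_eq_zero]
  intro p hp
  rw [Phi_apply] at hp
  have h1 : p.comp (1 + X) = 0 := by
    have h2 : ((p.comp (1 + X) : ℤ[X]) : PowerSeries ℤ) = ((0 : ℤ[X]) : PowerSeries ℤ) := by
      rw [hp, Polynomial.coe_zero]
    exact Polynomial.coe_injective ℤ h2
  have h3 : (p.comp (1 + X)).comp (X - 1) = 0 := by rw [h1, zero_comp]
  rw [comp_assoc] at h3
  have h4 : ((1 : ℤ[X]) + X).comp (X - 1) = X := by simp
  rw [h4, comp_X] at h3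
  exact h3

theorem Phi_th (p : ℤ[X]) : PowerSeries.C 1 * Phi (th p) =
    (1 + PowerSeries.X) * PowerSeries.derivative ℤ (Phi p) := by
  rw [Phi_apply, Phi_apply, PowerSeries.derivative_coe, derivative_comp]
  unfold th
  rw [mul_comp, X_comp, map_one, one_mul]
  have h1 : derivative (1 + X : ℤ[X]) = 1 := by simp
  rw [h1, one_mul]
  push_cast
  rfl

/-- division by a monic polynomial -/
theorem dvd_of_smul {q p : ℤ[X]} (hq : q.Monic) {e : ℤ} (he : e ≠ 0) (h : q ∣ e • p) :
    q ∣ p := by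
  rw [← modByMonic_eq_zero_iff_dvd hq] at h ⊢
  rw [smul_modByMonic] at h
  rcases smul_eq_zero.1 h with h1 | h1
  · exact absurd h1 he
  · exact h1

theorem monic_X_sub_one_pow (k : ℕ) : ((X - 1 : ℤ[X]) ^ k).Monic := by
  have h : (X - 1 : ℤ[X]) = X - C 1 := by simp
  rw [h]
  exact (monic_X_sub_C 1).pow k

theorem zeroEst {nu : ℕ} (hnu : 1 ≤ nu) {a b : ℤ} (ha : 1 ≤ a) (hb : 1 ≤ b)
    (hab : IsCoprime a b) (J : ℕ) {ι : Type} [Fintype ι] (r0 : ℕ)
    (hr0 : Fintype.card ι = r0) (A : ι → ℕ → ℕ → ℤ) (Z : ℝ) (hZ1 : 1 ≤ Z)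
    (hZ : ∀ m j i, |((A m j i : ℤ) : ℝ)| ≤ Z) (μ : ι → ℤ)
    (hne : shp nu J a b (fun j i => ∑ m, μ m * A m j i) ≠ 0) (K : ℕ)
    (hdvd : (X - 1 : ℤ[X]) ^ K ∣ shp nu J a b (fun j i => ∑ m, μ m * A m j i)) :
    (a : ℝ) ^ ((K - r0) / nu) ≤
      (max (a : ℝ) b) ^ r0 * ((r0 : ℝ) * ((nu * (J + 1) : ℝ) ^ r0 * Z)) ^ r0 := by
  classical
  set h : ℤ[X] := shp nu J a b (fun j i => ∑ m, μ m * A m j i) with hh
  have hhs : h = ∑ m, μ m • shp nu J a b (A m) := by rw [hh]; exact shp_sum univ J A μ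
  obtain ⟨r, s, c0, c, l0, hr, hcl0, hrel, hindep⟩ :=
    MultGAux.exists_min_rel (fun m => shp nu J a b (A m)) h hne
    (fun k v hkv => by
      rcases smul_eq_zero.mp hkv with h | h
      · exact Or.inl h
      · exact Or.inr h) μ hhs
  rw [hr0] at hr
  have hr01 : 1 ≤ r := by have := l0.2; omega
  set M : Matrix (Fin r) (Fin r) ℤ[X] :=
    Matrix.of fun i l => th^[(i : ℕ)] (shp nu J a b (A (s l))) with hM
  -- the Wronskian is not zero
  have hW0 : M.det ≠ 0 := by
    intro h0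
    have h1 : (Matrix.of fun (i l : Fin r) =>
        Phi (th^[(i : ℕ)] (shp nu J a b (A (s l))))).det ≠ 0 := by
      refine wronsk 1 one_ne_zero (1 + PowerSeries.X) (by simp)
        (fun i l => Phi (th^[i] (shp nu J a b (A (s l))))) ?_ ?_
      · intro i l
        rw [Function.iterate_succ_apply']
        exact Phi_th _
      · intro e he
        apply hindep
        apply Phi_inj
        rw [map_zero, ← he, map_sum]
        refine sum_congr rfl fun l _ => ?_
        simp only [Function.iterate_zero, id]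
        rw [map_zsmul, zsmul_eq_mul]
        simp
    apply h1
    have h2 := congrArg Phi h0
    rw [RingHom.map_det, map_zero] at h2
    exact h2
  -- divisibility
  set q : ℤ[X] := (X - 1) ^ (K - r0) with hq
  have hqM : q.Monic := monic_X_sub_one_pow _
  have hdvdW : q ∣ M.det := by
    have h1 : ∀ i : Fin r, ∃ u : ℤ[X], c0 • th^[(i : ℕ)] h = q * u := by
      intro i
      have h2 : q ∣ th^[(i : ℕ)] h := by
        refine dvd_trans (pow_dvd_pow _ ?_) (iter_th_dvd hdvd (i : ℕ))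
        have := i.2
        omega
      obtain ⟨u, hu⟩ := h2
      exact ⟨c0 • u, by rw [hu, mul_smul_comm]⟩
    choose u hu using h1
    have h3 : c l0 • M.det = (M.updateCol l0 (fun (i : Fin r) => q * u i)).det := by
      have h4 := Matrix.det_updateCol_sum M l0 (fun l => ((c l : ℤ) : ℤ[X]))
      have h5 : (fun k => ∑ l, ((c l : ℤ) : ℤ[X]) • M k l) = (fun (i : Fin r) => q * u i) := by
        funext i
        rw [← hu i, ← iter_th_smul, hrel, iter_th_sum]
        refine sum_congr rfl fun l _ => ?_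
        rw [hM, Matrix.of_apply, smul_eq_mul, iter_th_smul, zsmul_eq_mul]
      rw [h5] at h4
      rw [h4, smul_eq_mul, zsmul_eq_mul]
    have h6 : (M.updateCol l0 (fun (i : Fin r) => q * u i)).det =
        q * (M.updateCol l0 u).det := by
      rw [← Matrix.det_updateCol_smul]
      rfl
    refine dvd_of_smul hqM hcl0 ?_
    rw [h3, h6]
    exact dvd_mul_right _ _
  -- the size
  have haR : (1 : ℝ) ≤ a := by exact_mod_cast ha
  have hbR : (1 : ℝ) ≤ b := by exact_mod_cast hb
  have hnuR : (1 : ℝ) ≤ nu := by exact_mod_cast hnu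
  have hD1 : (1 : ℝ) ≤ nu * (J + 1) := by
    have : (1 : ℝ) ≤ (J : ℝ) + 1 := by
      have := Nat.cast_nonneg (α := ℝ) J
      linarith
    exact one_le_mul_of_one_le_of_one_le hnuR this
  have hmax : (1 : ℝ) ≤ max (a : ℝ) b := le_trans haR (le_max_left _ _)
  set B : ℝ := (nu * (J + 1) : ℝ) ^ r0 * Z with hB
  have hB1 : 1 ≤ B := one_le_mul_of_one_le_of_one_le (one_le_pow₀ hD1) hZ1
  have hentry : ∀ i l : Fin r, Sh nu a b J B (M i l) := by
    intro i l
    have h1 : Sh nu a b J ((nu * (J + 1) : ℝ) * Z) (shp nu J a b (A (s l))) := by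
      refine ⟨_, rfl, ?_⟩
      calc ∑ j ∈ range (J + 1), ∑ i ∈ range nu, |((A (s l) j i : ℤ) : ℝ)|
          ≤ ∑ j ∈ range (J + 1), ∑ i ∈ range nu, Z :=
            sum_le_sum fun j _ => sum_le_sum fun i _ => hZ _ _ _
        _ = (nu * (J + 1) : ℝ) * Z := by
            simp only [sum_const, card_range, nsmul_eq_mul]
            push_cast
            ring
    refine (h1.iter (i : ℕ)).mono ?_
    rw [hB, ← mul_assoc, ← pow_succ]
    refine mul_le_mul_of_nonneg_right (pow_le_pow_right₀ hD1 ?_) (by linarith)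
    have := i.2
    omega
  have hdet := Sh.det hnu ha hb r M hentry
  obtain ⟨w, hw, hwH⟩ := hdet
  have hCab : C (a * b) ^ r ≠ 0 := by
    refine pow_ne_zero _ ?_
    rw [Ne, C_eq_zero]
    have : 0 < a * b := by positivity
    exact this.ne'
  have hfin := lemZ hnu ha hab w (r.factorial * (max (a : ℝ) b ^ r * B ^ r)) (by
      intro j hj i hi
      refine le_trans ?_ hwH
      refine le_trans ?_ (single_le_sum (f := fun j => ∑ i ∈ range nu, |((w j i : ℤ) : ℝ)|)
        (fun j _ => sum_nonneg fun i _ => abs_nonneg _) (mem_range.2 (Nat.lt_succ_of_le hj)))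
      exact single_le_sum (f := fun i => |((w j i : ℤ) : ℝ)|)
        (fun i _ => abs_nonneg _) (mem_range.2 hi)) (by
      rw [← hw]
      exact mul_ne_zero hCab hW0) (K - r0) (by
      rw [← hw]
      exact Dvd.dvd.mul_left hdvdW _)
  refine hfin.trans ?_
  have h7 : (r.factorial : ℝ) ≤ (r0 : ℝ) ^ r0 := by
    have h4 := Nat.factorial_le hr
    have h5 := Nat.factorial_le_pow r0
    exact_mod_cast h4.trans h5
  calc (r.factorial : ℝ) * (max (a : ℝ) b ^ r * B ^ r)
      ≤ (r0 : ℝ) ^ r0 * (max (a : ℝ) b ^ r0 * B ^ r0) := by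
        refine mul_le_mul h7 ?_ (by positivity) (by positivity)
        exact mul_le_mul (pow_le_pow_right₀ hmax hr) (pow_le_pow_right₀ hB1 hr) (by positivity)
          (by positivity)
    _ = (max (a : ℝ) b) ^ r0 * ((r0 : ℝ) * B) ^ r0 := by rw [mul_pow]; ring

end Pool.Agent.H97.AN
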