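import Pool.Agent.H97.AN.SiegA
import Pool.Agent.H97.AN.St1A
import Pool.Agent.H97.AN.Tay
import Pool.Agent.H97.AN.ZE
import Pool.Agent.H97.AN.Num
import Pool.Agent.H8.KF.NZ
import Pool.Agent.H72.ES.EvY

/-! # [AN-PT] There is no large integer point near an anchored point at infinity -/

namespace Pool.Agent.H97.AN

open Finset Polynomial Pool.Agent.H72.ES Pool.Agent.H8.KF

theorem shp_coeff {nu M : ℕ} {a b : ℤ} (c : ℕ → ℕ → ℤ) {j i : ℕ} (hj : j ≤ M) (hi : i < nu) :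
    (shp nu M a b c).coeff (nu * j + i) = c j i * (a ^ j * b ^ (M - j)) := by
  have hpos : 0 < nu := by omega
  unfold shp
  rw [finsetSum_coeff, sum_eq_single_of_mem j (mem_range.2 (by omega))]
  · rw [finsetSum_coeff, sum_eq_single_of_mem i (mem_range.2 hi)]
    · rw [coeff_C_mul, coeff_X_pow, if_pos rfl, mul_one]
    · intro i' _ hi'
      rw [coeff_C_mul, coeff_X_pow, if_neg (by omega), mul_zero]
  · intro j' _ hj'
    rw [finsetSum_coeff]
    refine sum_eq_zero fun i' hi' => ?_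
    rw [mem_range] at hi'
    rw [coeff_C_mul, coeff_X_pow, if_neg, mul_zero]
    intro he
    apply hj'
    have h1 : (nu * j + i) / nu = j := by
      rw [Nat.mul_add_div hpos, Nat.div_eq_of_lt hi, add_zero]
    have h2 : (nu * j' + i') / nu = j' := by
      rw [Nat.mul_add_div hpos, Nat.div_eq_of_lt hi', add_zero]
    rw [← h1, ← h2, he]

theorem sa_map {S S' : Type*} [CommRing S] [CommRing S'] (ψ : S →+* S') (n nu J : ℕ)
    (A : ℕ → ℕ → ℕ → ℕ → ℤ) (u v : ℕ → ℕ → S) :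
    ψ (sa n nu J A u v) = sa n nu J A (fun j i => ψ (u j i)) (fun p q => ψ (v p q)) := by
  simp [sa, map_sum, map_mul]

theorem sa_congr {S : Type*} [CommRing S] (n nu J : ℕ) (A : ℕ → ℕ → ℕ → ℕ → ℤ)
    {u u' : ℕ → ℕ → S} (v : ℕ → ℕ → S) (h : ∀ j i, i < nu → u j i = u' j i) :
    sa n nu J A u v = sa n nu J A u' v := by
  unfold sa
  refine sum_congr rfl fun j _ => sum_congr rfl fun i hi => ?_
  rw [h j i (mem_range.1 hi)]

theorem sa_scale {S : Type*} [CommRing S] (n nu J : ℕ) (A : ℕ → ℕ → ℕ → ℕ → ℤ) (w : S)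
    (u v : ℕ → ℕ → S) : sa n nu J A (fun j i => w * u j i) v = w * sa n nu J A u v := by
  unfold sa
  rw [mul_sum]
  refine sum_congr rfl fun j _ => ?_
  rw [mul_sum]
  refine sum_congr rfl fun i _ => ?_
  rw [mul_sum]
  refine sum_congr rfl fun p _ => ?_
  rw [mul_sum]
  refine sum_congr rfl fun q _ => ?_
  ring

/-- the specialisation as a sum over the box of `(p, q)` -/
theorem spec_eqA {n : ℕ} (A : ℕ → ℕ → ℕ → ℕ → ℤ)
    (hA : ∀ j i p q, A j i p q ≠ 0 → p + q ≤ 3 * n ∧ q < n) (x2 y2 : ℤ) (i j : ℕ) :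
    spec n A x2 y2 i j = ∑ m : Fin (3 * n + 1) × Fin n,
      (x2 ^ (m.1 : ℕ) * y2 ^ (m.2 : ℕ)) * A i j m.1 m.2 := by
  unfold spec ev
  rw [Fintype.sum_prod_type, Finset.sum_range]
  refine sum_congr rfl fun p _ => ?_
  rw [← Fin.sum_univ_eq_sum_range (fun q => A i j p q * x2 ^ (p : ℕ) * y2 ^ q)]
  have key : ∀ N : ℕ, (∀ q, q < N → ¬ q < n → A i j p q = 0) → (∀ q, q < n → ¬ q < N → A i j p q = 0) →
      ∑ q : Fin N, A i j p q * x2 ^ (p : ℕ) * y2 ^ (q : ℕ) =
      ∑ q : Fin n, x2 ^ (p : ℕ) * y2 ^ (q : ℕ) * A i j p q := by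
    intro N h1 h2
    rw [Fin.sum_univ_eq_sum_range (fun q => A i j p q * x2 ^ (p : ℕ) * y2 ^ q),
      Fin.sum_univ_eq_sum_range (fun q => x2 ^ (p : ℕ) * y2 ^ q * A i j p q)]
    have e1 : ∑ q ∈ range N, A i j p q * x2 ^ (p : ℕ) * y2 ^ q =
        ∑ q ∈ range (max N n), A i j p q * x2 ^ (p : ℕ) * y2 ^ q := by
      refine sum_subset (fun q hq => ?_) (fun q hq hq' => ?_)
      · rw [mem_range] at hq ⊢; omega
      · rw [mem_range] at hq hq'
        rw [h2 q (by omega) hq', zero_mul, zero_mul]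
    have e2 : ∑ q ∈ range n, x2 ^ (p : ℕ) * y2 ^ q * A i j p q =
        ∑ q ∈ range (max N n), x2 ^ (p : ℕ) * y2 ^ q * A i j p q := by
      refine sum_subset (fun q hq => ?_) (fun q hq hq' => ?_)
      · rw [mem_range] at hq ⊢; omega
      · rw [mem_range] at hq hq'
        rw [h1 q (by omega) hq', mul_zero]
    rw [e1, e2]
    exact sum_congr rfl fun q _ => by ring
  apply key
  · intro q _ hq
    by_contra hne
    exact hq (hA i j p q hne).2
  · intro q _ hq
    by_contra hne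
    have := (hA i j p q hne).1
    omega

/-- divisibility by a power of `X - 1` from Taylor coefficients -/
theorem dvd_of_taylor {h : ℤ[X]} {K : ℕ} (hK : ∀ k < K, (taylor 1 h).coeff k = 0) :
    (X - 1 : ℤ[X]) ^ K ∣ h := by
  have h1 : (X - 1 : ℤ[X]) = X - C 1 := by simp
  rw [h1, X_sub_C_pow_dvd_iff, ← taylor_apply, X_pow_dvd_iff]
  exact hK

theorem anchored_point {n Q : ℕ} {f : ℤ[X]} {θ : ℝ} (hf : Irreducible f) (O : Ord ℝ n Q f θ)
    {F : ℕ → ℕ → ℤ} (hF : Norml n Q f F) {nu : ℕ} (h3 : 3 ≤ nu) (hnu : nu ≤ n) {a b : ℤ}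
    (hb : 1 ≤ b) (hab : IsCoprime a b) (hne : a ≠ b) (ha : (2 : ℝ) ^ (1100 * n ^ 5) ≤ a)
    (hδ : |(b : ℝ) - a| ^ (100 * n) ≤ a) {G : ℝ} (hG : 1 ≤ G) (an : Anchor O nu a b G)
    (x y : ℤ) (h : ev n F x y = 0) (hy : |(y : ℝ) / x - θ| ≤ 1 / bb n Q)
    (hx1 : (a : ℝ) ^ (512 * n ^ 3) ≤ |(x : ℝ)|)
    (hx2 : (G * bb n Q) ^ (13312 * n ^ 4) ≤ |(x : ℝ)|) : False := by
  have hn := hF.hn
  have hQ := hF.hQ
  have hB1 := one_le_bb hn hQ
  obtain ⟨ha2, ha1⟩ := num_a hn ha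
  have ha0 : (0 : ℝ) < a := by linarith
  have haZ : 1 ≤ a := by exact_mod_cast ha1.le
  have hbR : (1 : ℝ) ≤ b := by exact_mod_cast hb
  obtain ⟨br⟩ := exists_branch O hF
  set B := bb n Q with hB
  have hB0 : 0 < B := by linarith
  have hG0 : 0 < G := by linarith
  set V : ℝ := G * B with hV
  have hV1 : 1 ≤ V := one_le_mul_of_one_le_of_one_le hG hB1
  have hBV : B ≤ V := by rw [hV]; nlinarith
  have hn4 : 256 ≤ n ^ 4 := by
    calc 256 = 4 ^ 4 := by norm_num
      _ ≤ n ^ 4 := Nat.pow_le_pow_left hn 4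
  -- δ
  set δ : ℝ := |(b : ℝ) - a| with hδd
  have hδ1 : 1 ≤ δ := by
    have h1 : 1 ≤ |b - a| := Int.one_le_abs (sub_ne_zero.2 (Ne.symm hne))
    have h2 : ((1 : ℤ) : ℝ) ≤ ((|b - a| : ℤ) : ℝ) := by exact_mod_cast h1
    push_cast at h2
    exact h2
  have hδa : 2 * δ ≤ a := by
    have h4 : (4 : ℝ) ≤ a := by
      refine le_trans ?_ ha
      calc (4 : ℝ) = 2 ^ 2 := by norm_num
        _ ≤ 2 ^ (1100 * n ^ 5) := by
          refine pow_le_pow_right₀ (by norm_num) ?_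
          have : 0 < n ^ 5 := by positivity
          omega
    have h5 : δ ^ 2 ≤ a := (pow_le_pow_right₀ hδ1 (by omega)).trans hδ
    rcases le_total δ 2 with h6 | h6
    · linarith
    · nlinarith
  have hba : (b : ℝ) ≤ 2 * a := by
    have := le_abs_self ((b : ℝ) - a)
    linarith
  -- choice of la
  have hX1 : (1 : ℝ) ≤ |(x : ℝ)| := (one_le_pow₀ ha1.le).trans hx1
  obtain ⟨la, hla1, hla2⟩ := exists_nat_pow_near (x := |(x : ℝ)|) hX1 ha1
  have hla : 512 * n ^ 3 ≤ la := by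
    by_contra hc
    have : (a : ℝ) ^ (la + 1) ≤ (a : ℝ) ^ (512 * n ^ 3) := pow_le_pow_right₀ ha1.le (by omega)
    linarith
  obtain ⟨hla8, -, -, -⟩ := num_lin hn hla
  have hVX : V ^ (13312 * n ^ 4) ≤ (a : ℝ) ^ (la + 1) := hx2.trans hla2.le
  -- the auxiliary polynomial
  obtain ⟨A, hA0, hAs, hAb, hAv⟩ := siegA O hF br h3 hnu hG an la hla8
  set Z : ℝ := (2 ^ (4 * n ^ 2 * la) * (G * B ^ (13 * n))) ^ 4 with hZ
  have hGB1 : 1 ≤ G * B ^ (13 * n) := one_le_mul_of_one_le_of_one_le hG (one_le_pow₀ hB1)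
  have hZ1 : 1 ≤ Z :=
    one_le_pow₀ (one_le_mul_of_one_le_of_one_le (one_le_pow₀ (by norm_num)) hGB1)
  have hZ0 : 0 ≤ Z := by linarith
  have hZV : Z ≤ 2 ^ (16 * n ^ 2 * la) * V ^ (52 * n) := by
    have e1 : G * B ^ (13 * n) ≤ V ^ (13 * n) := by
      rw [hV, mul_pow]
      exact mul_le_mul_of_nonneg_right (le_self_pow₀ hG (by omega)) (by positivity)
    calc Z = (2 ^ (4 * n ^ 2 * la)) ^ 4 * (G * B ^ (13 * n)) ^ 4 := by rw [hZ, mul_pow]
      _ ≤ (2 ^ (4 * n ^ 2 * la)) ^ 4 * (V ^ (13 * n)) ^ 4 :=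
          mul_le_mul_of_nonneg_left (pow_le_pow_left₀ (by positivity) e1 4) (by positivity)
      _ = 2 ^ (16 * n ^ 2 * la) * V ^ (52 * n) := by
          rw [← pow_mul, ← pow_mul]
          congr 2 <;> ring
  -- the anchor
  have hal0 := an.al_pos
  have halp := an.al_pow
  have hal2 : ∀ i < nu, an.al ^ i ≤ 2 := by
    intro i hi
    rcases le_total an.al 1 with h1 | h1
    · exact (pow_le_one₀ hal0.le h1).trans (by norm_num)
    · have h2 : an.al ^ i ≤ an.al ^ nu := pow_le_pow_right₀ h1 hi.le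
      have h4 : an.al ^ nu ≤ 2 := by
        by_contra hc
        push Not at hc
        nlinarith
      exact h2.trans h4
  have hv : ∀ k l, k + la * l < TT n la →
      sa n nu (3 * n * la) A (fun j i => ((Nat.choose (nu * j + i) k : ℕ) : ℝ) * an.al ^ i)
        (fun p q => O.φ (bc O br (3 * n) p q l)) = 0 := by
    intro k l hkl
    have e1 := congrArg O.φ (hAv k l hkl)
    rw [sa_map, map_zero] at e1
    have e2 : sa n nu (3 * n * la) A
        (fun j i => O.φ (((Nat.choose (nu * j + i) k : ℕ) : O.R) * an.g i))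
        (fun p q => O.φ (bc O br (3 * n) p q l)) =
        sa n nu (3 * n * la) A
        (fun j i => O.φ an.d * (((Nat.choose (nu * j + i) k : ℕ) : ℝ) * an.al ^ i))
        (fun p q => O.φ (bc O br (3 * n) p q l)) := by
      refine sa_congr n nu (3 * n * la) A _ fun j i hi => ?_
      rw [map_mul, map_natCast, an.φ_g i hi]
      ring
    rw [e2, sa_scale] at e1
    exact (mul_eq_zero.1 e1).resolve_left an.d_ne
  -- sizes at the point
  have hxB5 : B ^ 5 ≤ |(x : ℝ)| := by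
    calc B ^ 5 ≤ V ^ 5 := pow_le_pow_left₀ hB0.le hBV 5
      _ ≤ V ^ (13312 * n ^ 4) := pow_le_pow_right₀ hV1 (by omega)
      _ ≤ _ := hx2
  have hxne : x ≠ 0 := by
    rintro rfl
    simp only [Int.cast_zero, abs_zero] at hX1
    linarith
  obtain ⟨hκ, -⟩ := evy_bounds O hF x y hxB5 hy
  have hst := st1A O hF br (by omega) hnu la hla8 A hAs Z hAb an.al hal0.le hal2 hv x y h hy
    hxB5 a ha1.le hla1
  set U : ℝ := Z * 2 ^ (4 * n ^ 2 * la) * B ^ (26 * n) with hU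
  have hU0 : 0 ≤ U := by positivity
  set hs : ℤ[X] := shp nu (3 * n * la) a b (spec n A x y) with hhs
  have htay := taylor_small (nu := nu) (J := 3 * n * la) (T := TT n la) (P := 3 * n * (la + 1))
    (e := ee la) (by omega) (by unfold TT; ring) haZ hb δ hδ1 le_rfl hδa an.al hal0 halp
    (spec n A x y) U hU0 (by
      intro m
      refine (hst m).trans ?_
      rw [mul_comm]
      refine mul_le_mul_of_nonneg_left ?_ hU0
      calc |(x : ℝ)| ^ (3 * n) ≤ ((a : ℝ) ^ (la + 1)) ^ (3 * n) :=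
            pow_le_pow_left₀ (abs_nonneg _) hla2.le _
        _ = (a : ℝ) ^ (3 * n * (la + 1)) := by rw [← pow_mul]; congr 1; ring)
  have hvan : ∀ k < la / 4 + 1, (taylor 1 hs).coeff k = 0 := by
    intro k hk
    have hk' : k ≤ la / 4 := by omega
    have hke : k ≤ ee la := by unfold ee; omega
    have e1 := htay k hke
    have e2 : |(((taylor 1 hs).coeff k : ℤ) : ℝ)| < 1 := by
      refine num_lt_one hn hla ha hδ1 hδ hV1 hVX k hk' _ (e1.trans ?_)
      refine mul_le_mul_of_nonneg_right ?_ (by positivity)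
      have e3 : (2 : ℝ) ^ (3 * (nu * (3 * n * la + 1)) + 3 * n * la) ≤ 2 ^ (10 * n ^ 2 * la) := by
        refine pow_le_pow_right₀ (by norm_num) ?_
        have e4 : nu * (3 * n * la + 1) ≤ n * (3 * n * la + 1) := Nat.mul_le_mul_right _ hnu
        have e5 : n * (3 * n * la + 1) = 3 * n ^ 2 * la + n := by ring
        have e6 : 3 * n + 3 * n * la ≤ n ^ 2 * la := by
          calc 3 * n + 3 * n * la = n * (3 + 3 * la) := by ring
            _ ≤ n * (n * la) := by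
                refine Nat.mul_le_mul_left _ ?_
                have : 4 * la ≤ n * la := Nat.mul_le_mul_right _ hn
                omega
            _ = n ^ 2 * la := by ring
        have e7 : 3 * n ^ 2 * la = 3 * (n ^ 2 * la) := by ring
        have e8 : 10 * n ^ 2 * la = 10 * (n ^ 2 * la) := by ring
        omega
      have e4 : B ^ (26 * n) ≤ V ^ (26 * n) := pow_le_pow_left₀ hB0.le hBV _
      calc 2 ^ (3 * (nu * (3 * n * la + 1)) + 3 * n * la) * U
          ≤ 2 ^ (10 * n ^ 2 * la) * ((2 ^ (16 * n ^ 2 * la) * V ^ (52 * n)) *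
            2 ^ (4 * n ^ 2 * la) * V ^ (26 * n)) := by
            rw [hU]
            gcongr
        _ = 2 ^ (10 * n ^ 2 * la + 16 * n ^ 2 * la + 4 * n ^ 2 * la) *
            V ^ (52 * n + 26 * n) := by
            rw [pow_add, pow_add, pow_add]; ring
        _ = 2 ^ (30 * n ^ 2 * la) * V ^ (78 * n) := by
            congr 2 <;> ring
    have e5 : |(taylor 1 hs).coeff k| < 1 := by exact_mod_cast e2
    exact Int.abs_lt_one_iff.1 e5
  have hdvd : (X - 1 : ℤ[X]) ^ (la / 4 + 1) ∣ hs := dvd_of_taylor hvan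
  -- h is not zero
  have hspec : spec n A x y = fun j i => ∑ m : Fin (3 * n + 1) × Fin n,
      (x ^ (m.1 : ℕ) * y ^ (m.2 : ℕ)) * A j i m.1 m.2 := by
    funext j i
    exact spec_eqA A (fun j i p q hh => (hAs j i p q hh).2) x y j i
  obtain ⟨j0, i0, p0, q0, hm0⟩ := hA0
  have hs0 : hs ≠ 0 := by
    intro h0
    have hji := (hAs j0 i0 p0 q0 hm0).1
    have e1 := shp_coeff (nu := nu) (M := 3 * n * la) (a := a) (b := b) (spec n A x y) hji.1 hji.2
    rw [← hhs, h0, coeff_zero] at e1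
    have e2 : a ^ j0 * b ^ (3 * n * la - j0) ≠ 0 :=
      mul_ne_zero (pow_ne_zero _ (by omega)) (pow_ne_zero _ (by omega))
    have e3 := (mul_eq_zero.1 e1.symm).resolve_right e2
    refine nz hF hf x y hxne h hκ (3 * n) (A j0 i0) (fun p q hh => (hAs j0 i0 p q hh).2)
      ⟨p0, q0, hm0⟩ Z (hAb j0 i0) ?_ e3
    have e4 : (((3 * n : ℕ) : ℝ) + 1) * (Q : ℝ) ^ (3 * n + 2) ≤ V := by
      refine le_trans ?_ hBV
      have e2 := n_leR hn hQ
      have e3 := sixteen_leR hn hQ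
      have e1 : (((3 * n : ℕ) : ℝ) + 1) ≤ (Q : ℝ) ^ 2 := by
        push_cast
        nlinarith
      calc (((3 * n : ℕ) : ℝ) + 1) * (Q : ℝ) ^ (3 * n + 2) ≤
            (Q : ℝ) ^ 2 * (Q : ℝ) ^ (3 * n + 2) := by gcongr
        _ = (Q : ℝ) ^ (3 * n + 4) := by rw [← pow_add]; congr 1; ring
        _ ≤ B := Qpow_le_bb hn hQ (by nlinarith)
    have e5 : ((((3 * n : ℕ) : ℝ) + 1) * (Q : ℝ) ^ (3 * n + 2) * Z) ^ n ≤
        2 ^ (16 * n ^ 3 * la) * V ^ (53 * n ^ 2) := by
      have hnn2 : n ≤ n ^ 2 := Nat.le_self_pow (by norm_num) n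
      calc ((((3 * n : ℕ) : ℝ) + 1) * (Q : ℝ) ^ (3 * n + 2) * Z) ^ n
          ≤ (V * (2 ^ (16 * n ^ 2 * la) * V ^ (52 * n))) ^ n := by gcongr
        _ = 2 ^ (16 * n ^ 2 * la * n) * V ^ (n + 52 * n * n) := by
            clear_value V
            rw [mul_pow, mul_pow, ← pow_mul, ← pow_mul, pow_add]; ring
        _ ≤ 2 ^ (16 * n ^ 3 * la) * V ^ (53 * n ^ 2) := by
            refine mul_le_mul (le_of_eq (by congr 1; ring)) (pow_le_pow_right₀ hV1 ?_)
              (by positivity) (by positivity)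
            nlinarith
    exact lt_of_le_of_lt e5 (lt_of_lt_of_le (num_nz hn hla ha hV1 hVX) hla1)
  -- the zero estimate
  rw [hspec] at hhs
  have hze := zeroEst (nu := nu) (by omega) haZ hb hab (3 * n * la)
    (ι := Fin (3 * n + 1) × Fin n) ((3 * n + 1) * n) (by simp)
    (fun m j i => A j i m.1 m.2) Z hZ1 (fun m j i => hAb j i m.1 m.2)
    (fun m => x ^ (m.1 : ℕ) * y ^ (m.2 : ℕ)) (by rw [← hhs]; exact hs0) (la / 4 + 1)
    (by rw [← hhs]; exact hdvd)
  refine num_final (M := max (a : ℝ) b) hn (by omega) hnu hla ha hV1 hVX Z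
    (ha1.le.trans (le_max_left _ _)) (max_le (by linarith) hba) hZ1 hZV hze

end Pool.Agent.H97.AN
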