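import Pool.Agent.H97.AN.Dual

/-! # [AN-ANCEX] Existence of the anchor data

WLOG `0 < ψ γ`: it is nonzero (`a (ψ γ)^nu = b ≠ 0`); if `ψ γ < 0` replace `γ` by `-γ`: then
`|ψ γ|^nu = b / a` (absolute value of `(ψ γ)^nu = b / a > 0`), so `a (-ψ γ)^nu = b` and
`a (-γ)^nu = b` in `K` because `ψ` is injective. Put `al = ψ γ`.

For `i < nu` let `β = a γ^i`: it is integral over `ℤ`, because `β^nu = a^nu (γ^nu)^i = a^(nu-i) b^i`
(as `a γ^nu = b`), `IsIntegral.of_pow`; for `σ : K →+* ℂ`, `‖σ β‖^nu = a^(nu-i) b^i ≤ (2a)^nu` (as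
`1 ≤ a`, `1 ≤ b ≤ 2a`), so `‖σ β‖ ≤ 2 a`. `dual_coords` with `W = 2a` gives `p i : ℤ[X]` of degree
`< n`, `aeval α (p i) = β * aeval α (derivative f)`, coefficients `≤ 2 a Q^(2n+1)`.
`g i = aeval O.α (p i)`, `d = (a : O.R) * O.κ` (`O.κ = aeval O.α (derivative f)`). Then
`O.φ (g i) = aeval θ (p i)` (`O.φ_α`, `Polynomial.hom_eval₂`) `= ψ (aeval α (p i)) =
a al^i aeval θ (derivative f) = O.φ d * al^i`. `O.φ O.κ ≠ 0`: `aeval θ f' ≠ 0`, since otherwise
`ψ (aeval α f') = 0`, `aeval α f' = 0`, but `f` irreducible (over `ℚ` by Gauss) of degree `n > deg f'`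
with root `α`, `f' ≠ 0` (or use `O.indep` after `O.φ` injective; or `ap_kappa` in H72/ES, or
`O.liouville`: if `O.κ ≠ 0` then `1 ≤ ‖O.φ O.κ‖ * ..` gives `O.φ O.κ ≠ 0`, and `O.κ ≠ 0` by
`O.indep` applied to `derivative f`, which is nonzero of degree `< n`).
Size: `O.ν (g i) ≤ ∑_{j<n} |coeff| (n Q)^j ≤ n 2a Q^(2n+1) (Q^2)^(n-1) ≤ a Q^(4n+1) ≤ a bb n Q`
(`O.ν_add`, `O.ν_mul`, `O.ν_int`, `O.ν_α`, `nQ_le`, `2 n ≤ n^2 ≤ Q`, `Qpow_le_bb`, `4n+1 ≤ 7n²`). -/

namespace Pool.Agent.H97.AN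

open Finset Polynomial Pool.Agent.H72.ES

/-- values of polynomials with small coefficients -/
private theorem nu_aeval_le {n Q : ℕ} (hn : 4 ≤ n) (hQ : 2 ^ n ≤ Q) {f : ℤ[X]} {θ : ℝ}
    (O : Ord ℝ n Q f θ) (p : ℤ[X]) (hp : p.natDegree < n) (W : ℝ) (hW : 0 ≤ W)
    (hc : ∀ j, |((p.coeff j : ℤ) : ℝ)| ≤ W) :
    O.ν (aeval O.α p) ≤ n * (W * ((Q : ℝ) ^ 2) ^ (n - 1)) := by
  have hQ1 : (1 : ℝ) ≤ Q := one_le_QR hn hQ
  have hone : O.ν 1 ≤ 1 := by
    have := O.ν_int 1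
    simpa using this
  have hsum : ∀ (s : Finset ℕ) (g : ℕ → O.R), O.ν (∑ j ∈ s, g j) ≤ ∑ j ∈ s, O.ν (g j) := by
    intro s g
    classical
    induction s using Finset.induction_on with
    | empty => simp [O.ν_zero]
    | insert a s ha ih =>
      rw [sum_insert ha, sum_insert ha]
      exact (O.ν_add _ _).trans (add_le_add le_rfl ih)
  have hpow : ∀ j : ℕ, O.ν (O.α ^ j) ≤ ((Q : ℝ) ^ 2) ^ j := by
    intro j
    induction j with
    | zero => simpa using hone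
    | succ j ih =>
      rw [pow_succ, pow_succ]
      refine (O.ν_mul _ _).trans ?_
      exact mul_le_mul ih (O.ν_α.trans (nQ_le hn hQ)) (O.ν_nonneg _) (by positivity)
  rw [aeval_eq_sum_range' hp]
  refine (hsum _ _).trans ?_
  calc ∑ j ∈ range n, O.ν (p.coeff j • O.α ^ j)
      ≤ ∑ _j ∈ range n, W * ((Q : ℝ) ^ 2) ^ (n - 1) := by
        refine sum_le_sum (fun j hj => ?_)
        rw [zsmul_eq_mul]
        refine (O.ν_mul _ _).trans ?_
        refine mul_le_mul ((O.ν_int _).trans (hc j)) ((hpow j).trans ?_) (O.ν_nonneg _) hW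
        apply pow_le_pow_right₀ (one_le_pow₀ hQ1)
        have := mem_range.1 hj
        omega
    _ = n * (W * ((Q : ℝ) ^ 2) ^ (n - 1)) := by
        rw [sum_const, card_range, nsmul_eq_mul]

theorem exists_anchor {n Q : ℕ} (hn : 4 ≤ n) (hQ : 2 ^ n ≤ Q) {f : ℤ[X]} (hm : f.Monic)
    (hd : f.natDegree = n) (hc : ∀ j, |f.coeff j| ≤ (Q : ℤ)) (hf : Irreducible f) {θ : ℝ}
    (O : Ord ℝ n Q f θ) {nu : ℕ} (hnu : 1 ≤ nu) {a b : ℤ} (ha : 1 ≤ a) (hb : 1 ≤ b)
    (hba : b ≤ 2 * a) (K : Type) [Field K] [CharZero K] (hK : Module.finrank ℚ K = n) (α : K)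
    (hα : aeval α f = 0) (ψ : K →+* ℝ) (hψ : ψ α = θ) (γ : K) (hγ : (a : K) * γ ^ nu = b) :
    Nonempty (Anchor O nu a b (a * bb n Q)) := by
  have haR : (1 : ℝ) ≤ a := by exact_mod_cast ha
  have hbR : (1 : ℝ) ≤ b := by exact_mod_cast hb
  have hbaR : (b : ℝ) ≤ 2 * a := by exact_mod_cast hba
  have hnu0 : nu ≠ 0 := by omega
  -- a positive choice of the root
  obtain ⟨γ, hγ, hpos⟩ : ∃ γ : K, (a : K) * γ ^ nu = b ∧ 0 < ψ γ := by
    have hψγ : (a : ℝ) * (ψ γ) ^ nu = b := by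
      have := congrArg ψ hγ
      rw [map_mul, map_pow, map_intCast, map_intCast] at this
      exact this
    rcases lt_trichotomy (ψ γ) 0 with h | h | h
    · rcases Nat.even_or_odd nu with he | ho
      · refine ⟨-γ, ?_, ?_⟩
        · rw [he.neg_pow]
          exact hγ
        · rw [map_neg]
          linarith
      · exfalso
        have h1 : (ψ γ) ^ nu < 0 := ho.pow_neg h
        nlinarith
    · exfalso
      rw [h, zero_pow hnu0, mul_zero] at hψγ
      linarith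
    · exact ⟨γ, hγ, h⟩
  set al : ℝ := ψ γ with hal
  have halpow : (a : ℝ) * al ^ nu = b := by
    have := congrArg ψ hγ
    rw [map_mul, map_pow, map_intCast, map_intCast] at this
    exact this
  -- coordinates
  have hex : ∀ i : ℕ, i < nu → ∃ p : ℤ[X], p.natDegree < n ∧
      aeval α p = ((a : K) * γ ^ i) * aeval α (derivative f) ∧
      ∀ j, |((p.coeff j : ℤ) : ℝ)| ≤ 2 * a * (Q : ℝ) ^ (2 * n + 1) := by
    intro i hi
    have hβ : ((a : K) * γ ^ i) ^ nu = ((a ^ (nu - i) * b ^ i : ℤ) : K) := by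
      push_cast
      rw [← hγ, mul_pow, mul_pow, ← pow_mul, ← pow_mul, ← mul_assoc, ← pow_add]
      congr 2
      · omega
      · ring
    refine dual_coords hn hQ hm hd hc hf K hK α hα ((a : K) * γ ^ i) ?_ (2 * a) ?_
    · apply IsIntegral.of_pow (n := nu) (by omega)
      rw [hβ]
      exact isIntegral_algebraMap (R := ℤ) (A := K) (x := a ^ (nu - i) * b ^ i)
    · intro σ
      have h1 : ‖σ ((a : K) * γ ^ i)‖ ^ nu = (a : ℝ) ^ (nu - i) * (b : ℝ) ^ i := by
        rw [← norm_pow, ← map_pow, hβ, map_intCast, Complex.norm_intCast]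
        have h2 : (0 : ℝ) ≤ ((a ^ (nu - i) * b ^ i : ℤ) : ℝ) := by
          push_cast
          positivity
        rw [abs_of_nonneg h2]
        push_cast
        ring
      have h3 : (a : ℝ) ^ (nu - i) * (b : ℝ) ^ i ≤ (2 * a : ℝ) ^ nu := by
        calc (a : ℝ) ^ (nu - i) * (b : ℝ) ^ i ≤ (2 * a : ℝ) ^ (nu - i) * (2 * a : ℝ) ^ i := by
              gcongr
              linarith
          _ = (2 * a : ℝ) ^ nu := by
              rw [← pow_add]
              congr 1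
              omega
      rw [← h1] at h3
      exact le_of_pow_le_pow_left₀ hnu0 (by positivity) h3
  have hex' : ∀ i : ℕ, ∃ p : ℤ[X], i < nu → p.natDegree < n ∧
      aeval α p = ((a : K) * γ ^ i) * aeval α (derivative f) ∧
      ∀ j, |((p.coeff j : ℤ) : ℝ)| ≤ 2 * a * (Q : ℝ) ^ (2 * n + 1) := by
    intro i
    by_cases hi : i < nu
    · obtain ⟨p, hp⟩ := hex i hi
      exact ⟨p, fun _ => hp⟩
    · exact ⟨0, fun h => absurd h hi⟩
  choose p hp using hex'
  have hφ : ∀ q : ℤ[X], O.φ (aeval O.α q) = aeval θ q := by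
    intro q
    rw [aeval_def, hom_eval₂, O.φ_α, aeval_def]
    congr 1
    exact RingHom.ext_int _ _
  have hψ' : ∀ q : ℤ[X], ψ (aeval α q) = aeval θ q := by
    intro q
    rw [aeval_def, hom_eval₂, hψ, aeval_def]
    congr 1
    exact RingHom.ext_int _ _
  have hκ0 : O.κ ≠ 0 := by
    intro h0
    have hdd : (derivative f).natDegree < n := by
      rw [← hd]
      apply natDegree_derivative_lt
      omega
    have h1 := O.indep (derivative f) hdd h0
    have h2 := derivative_eq_zero.1 h1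
    omega
  have hφκ : O.φ O.κ ≠ 0 := by
    intro h0
    have h1 := O.liouville O.κ hκ0
    rw [h0, norm_zero, zero_mul] at h1
    linarith
  refine ⟨⟨(a : O.R) * O.κ, fun i => aeval O.α (p i), al, hpos, halpow, ?_, ?_, ?_⟩⟩
  · rw [map_mul, map_intCast]
    exact mul_ne_zero (by positivity) hφκ
  · intro i hi
    obtain ⟨_, h2, _⟩ := hp i hi
    rw [hφ, ← hψ', h2, map_mul, map_mul, map_mul, map_pow, map_intCast, map_intCast, hψ']
    have h3 : O.φ O.κ = aeval θ (derivative f) := hφ (derivative f)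
    rw [h3]
    ring
  · intro i hi
    obtain ⟨h1, _, h3⟩ := hp i hi
    have hQ1 : (1 : ℝ) ≤ Q := one_le_QR hn hQ
    refine (nu_aeval_le hn hQ O (p i) h1 (2 * a * (Q : ℝ) ^ (2 * n + 1)) (by positivity)
      h3).trans ?_
    have h4 : (2 * n : ℝ) ≤ Q := by
      have h5 : 2 * n ≤ 2 ^ n := by
        have : ∀ m : ℕ, 4 ≤ m → 2 * m ≤ 2 ^ m := by
          intro m hm4
          induction m, hm4 using Nat.le_induction with
          | base => norm_num
          | succ m hm4 ih =>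
            rw [pow_succ]
            omega
        exact this n hn
      exact_mod_cast h5.trans hQ
    have h6 : (Q : ℝ) ^ (4 * n) ≤ bb n Q := Qpow_le_bb hn hQ (by nlinarith)
    calc (n : ℝ) * (2 * a * (Q : ℝ) ^ (2 * n + 1) * ((Q : ℝ) ^ 2) ^ (n - 1))
        = a * ((2 * n) * ((Q : ℝ) ^ (2 * n + 1) * ((Q : ℝ) ^ 2) ^ (n - 1))) := by ring
      _ ≤ a * (Q * ((Q : ℝ) ^ (2 * n + 1) * ((Q : ℝ) ^ 2) ^ (n - 1))) := by gcongr
      _ = a * (Q : ℝ) ^ (4 * n) := by
          rw [← pow_mul, ← pow_add, ← pow_succ']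
          congr 2
          omega
      _ ≤ a * bb n Q := by gcongr

end Pool.Agent.H97.AN
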