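import Pool.Agent.H97.AN.Pt
import Pool.Agent.H97.AN.AncEx
import Pool.Agent.H8.KF.UniB
import Pool.Agent.H72.ES.WindowB
import Pool.Agent.H72.ES.Bridge
import Pool.Agent.H8.NoPt.Mv
import Pool.Agent.H8.KF.FinK

/-! # [AN-FIN] The effective theorem for integer arrays and for polynomials -/

namespace Pool.Agent.H97.AN

open Finset Polynomial Pool.Agent.H72.ES Pool.Agent.H8.KF Pool.Agent.H8.NoPt

theorem anchored_array {n : ℕ} (hn : 4 ≤ n) {nu : ℕ} (h3 : 3 ≤ nu) (hnu : nu ≤ n) {a b : ℤ}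
    (hb : 1 ≤ b) (hab : IsCoprime a b) (hne : a ≠ b) (ha : (2 : ℝ) ^ (1100 * n ^ 5) ≤ a)
    (hδ : |(b : ℝ) - a| ^ (100 * n) ≤ a) (G : ℕ → ℕ → ℤ) (haG : G 0 n ≠ 0)
    (hirr : Irreducible (leadQ n G)) (γ : AdjoinRoot (leadQ n G))
    (hγ : (a : AdjoinRoot (leadQ n G)) * γ ^ nu = b) (H : ℕ) (hH : 2 ≤ H)
    (hG : ∀ i j, i + j ≤ n → |G i j| ≤ (H : ℤ)) (x y : ℤ) (hz : ev n G x y = 0) :
    ((max |x| |y| : ℤ) : ℝ) ≤ (a : ℝ) ^ (13312 * n ^ 4) * (H : ℝ) ^ (372740 * n ^ 7) := by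
  obtain ⟨ha2, ha1⟩ := num_a hn ha
  have ha0 : (0 : ℝ) < a := by linarith
  have haZ : 1 ≤ a := by exact_mod_cast ha1.le
  set f := lead n (nrm n G) with hfdef
  have hf : Irreducible f := lead_nrm_irreducible (by omega) G haG hirr
  obtain ⟨hmf, hdf⟩ := lead_nrm_monic (n := n) G
  set c := G 0 n with hcdef
  set M : ℕ := H ^ n with hM
  set Q : ℕ := 2 * M with hQ
  have hM2 : 2 ^ n ≤ M := Nat.pow_le_pow_left hH n
  have hfam : Fam n Q M f (nrm n G) :=
    { hn := hn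
      hQ := by omega
      hM := le_refl _
      irr := hf
      lead_eq := rfl
      top := by simp [nrm]
      bound := fun i j hij => nrm_bound (by omega) G H (by omega) hG i j hij }
  have hN := hfam.norml
  have hz' : ev n (nrm n G) x (c * y) = 0 := by
    rw [hcdef, ev_nrm (by omega), hz, mul_zero]
  have hy' : |y| ≤ |c * y| := by
    rw [abs_mul]
    have : 1 ≤ |c| := Int.one_le_abs haG
    nlinarith [abs_nonneg y]
  have hmax : max |x| |y| ≤ max |x| |c * y| := max_le_max le_rfl hy'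
  have hQ1 := one_le_QR hfam.hn hfam.hQ
  have hb1 := one_le_bb hfam.hn hfam.hQ
  have hHR : (1 : ℝ) ≤ H := by exact_mod_cast (by omega : 1 ≤ H)
  have hn4 : 256 ≤ n ^ 4 := by
    calc 256 = 4 ^ 4 := by norm_num
      _ ≤ n ^ 4 := Nat.pow_le_pow_left hn 4
  have hnn4 : n ≤ n ^ 4 := Nat.le_self_pow (by norm_num) n
  set B := bb n Q with hBd
  have hB0 : 0 < B := by linarith
  set W : ℝ := ((a : ℝ) * B * B) ^ (13312 * n ^ 4) with hW
  have hW0 : 0 ≤ W := by positivity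
  by_cases hsmall : ((max |x| |c * y| : ℤ) : ℝ) < (Q : ℝ) ^ 2 * W
  · have h2 : ((max |x| |y| : ℤ) : ℝ) ≤ ((max |x| |c * y| : ℤ) : ℝ) := by exact_mod_cast hmax
    refine (h2.trans hsmall.le).trans ?_
    have hQH : (Q : ℝ) ≤ (H : ℝ) ^ (n + 1) := by
      rw [hQ, hM]
      push_cast
      have : (2 : ℝ) ≤ H := by exact_mod_cast hH
      calc 2 * (H : ℝ) ^ n ≤ H * (H : ℝ) ^ n := by gcongr
        _ = (H : ℝ) ^ (n + 1) := by ring
    have hQ0 : (0 : ℝ) ≤ Q := Nat.cast_nonneg _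
    have e1 : (Q : ℝ) ^ 2 * W = (a : ℝ) ^ (13312 * n ^ 4) * (Q : ℝ) ^ (2 + 186368 * n ^ 6) := by
      rw [hW, hBd]
      unfold bb
      rw [mul_pow, mul_pow, ← pow_mul, pow_add]
      have e2 : (Q : ℝ) ^ (186368 * n ^ 6) = (Q : ℝ) ^ (7 * n ^ 2 * (13312 * n ^ 4)) *
          (Q : ℝ) ^ (7 * n ^ 2 * (13312 * n ^ 4)) := by
        rw [← pow_add]; congr 1; ring
      rw [e2]
      ring
    rw [e1]
    refine mul_le_mul_of_nonneg_left ?_ (by positivity)
    calc (Q : ℝ) ^ (2 + 186368 * n ^ 6) ≤ ((H : ℝ) ^ (n + 1)) ^ (2 + 186368 * n ^ 6) :=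
          pow_le_pow_left₀ hQ0 hQH _
      _ = (H : ℝ) ^ ((n + 1) * (2 + 186368 * n ^ 6)) := by rw [← pow_mul]
      _ ≤ (H : ℝ) ^ (372740 * n ^ 7) := by
          refine pow_le_pow_right₀ hHR ?_
          have h4 : 2 + 186368 * n ^ 6 ≤ 186369 * n ^ 6 := by
            have : 2 ≤ n ^ 6 := by
              calc 2 ≤ 4 ^ 6 := by norm_num
                _ ≤ n ^ 6 := Nat.pow_le_pow_left hn 6
            omega
          calc (n + 1) * (2 + 186368 * n ^ 6) ≤ (2 * n) * (186369 * n ^ 6) :=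
                Nat.mul_le_mul (by omega) h4
            _ = 372738 * n ^ 7 := by ring
            _ ≤ 372740 * n ^ 7 := Nat.mul_le_mul_right _ (by norm_num)
  · exfalso
    push Not at hsmall
    have haB1 : 1 ≤ (a : ℝ) * B := one_le_mul_of_one_le_of_one_le ha1.le hb1
    have hBW : B ^ (n + 3) ≤ W := by
      have e1 : B ≤ (a : ℝ) * B * B := by nlinarith
      calc B ^ (n + 3) ≤ B ^ (13312 * n ^ 4) := pow_le_pow_right₀ hb1 (by omega)
        _ ≤ W := pow_le_pow_left₀ hB0.le e1 _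
    obtain ⟨hxW, θ, hθ, hnear⟩ := far_pointB hN hf x (c * y)
      (by rw [hz', abs_zero]; exact Int.natCast_nonneg Q) W hBW hsmall
    obtain ⟨hm, hd, hco⟩ := hN.lead_props
    obtain ⟨O, -⟩ := exists_ord_gen hn hN.hQ hm hd hco hf θ hθ
    -- the anchor
    have hfact : Fact (Irreducible (leadQ n G)) := ⟨hirr⟩
    have hcR : ((c : ℤ) : ℝ) ≠ 0 := by exact_mod_cast haG
    have hcz : CharZero (AdjoinRoot (leadQ n G)) := algebraRat.charZero _
    have hroot' : eval₂ (algebraMap ℚ ℝ) (θ / ((c : ℤ) : ℝ)) (leadQ n G) = 0 := by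
      have h1 := eval_nrm (n := n) (by omega) G (algebraMap ℤ ℝ) (algebraMap ℚ ℝ) (θ / ((c : ℤ) : ℝ))
      have h2 : ((G 0 n : ℤ) : ℝ) * (θ / ((c : ℤ) : ℝ)) = θ := by
        rw [← hcdef]
        field_simp
      rw [aeval_def] at hθ
      rw [h2, hθ] at h1
      exact (mul_eq_zero.1 h1.symm).resolve_left (pow_ne_zero _ hcR)
    set ψ : AdjoinRoot (leadQ n G) →+* ℝ := AdjoinRoot.lift (algebraMap ℚ ℝ) _ hroot' with hψ
    set α : AdjoinRoot (leadQ n G) := ((c : ℤ) : AdjoinRoot (leadQ n G)) *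
      AdjoinRoot.root (leadQ n G) with hα
    have hψα : ψ α = θ := by
      rw [hα, map_mul, map_intCast, hψ, AdjoinRoot.lift_root]
      field_simp
    have hα0 : aeval α (lead n (nrm n G)) = 0 := by
      rw [aeval_def, hα, eval_nrm (by omega) G _ (AdjoinRoot.of (leadQ n G)),
        AdjoinRoot.eval₂_root, mul_zero]
    have hfin : Module.finrank ℚ (AdjoinRoot (leadQ n G)) = n := by
      have h1 := (AdjoinRoot.powerBasis hirr.ne_zero).finrank
      rw [AdjoinRoot.powerBasis_dim, leadQ_degree G haG] at h1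
      convert h1
    have hδ1 : 1 ≤ |(b : ℝ) - a| := by
      have h1 : 1 ≤ |b - a| := Int.one_le_abs (sub_ne_zero.2 (Ne.symm hne))
      have h2 : ((1 : ℤ) : ℝ) ≤ ((|b - a| : ℤ) : ℝ) := by exact_mod_cast h1
      push_cast at h2
      exact h2
    have hba : b ≤ 2 * a := by
      have h5 : |(b : ℝ) - a| ≤ a := (le_self_pow₀ hδ1 (by omega)).trans hδ
      have h6 := le_abs_self ((b : ℝ) - a)
      have h7 : (b : ℝ) ≤ 2 * a := by linarith
      exact_mod_cast h7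
    obtain ⟨an⟩ := exists_anchor hn hN.hQ hm hd hco hf O (by omega : 1 ≤ nu) haZ hb hba
      (AdjoinRoot (leadQ n G)) hfin α hα0 ψ hψα γ hγ
    refine anchored_point hf O hN h3 hnu hb hab hne ha hδ haB1 an x (c * y) hz' hnear ?_ hxW
    refine le_trans ?_ hxW
    calc (a : ℝ) ^ (512 * n ^ 3) ≤ (a : ℝ) ^ (13312 * n ^ 4) := by
          refine pow_le_pow_right₀ ha1.le ?_
          have : n ^ 3 ≤ n ^ 4 := Nat.pow_le_pow_right (by omega) (by norm_num)
          omega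
      _ ≤ W := by
          refine pow_le_pow_left₀ ha0.le ?_ _
          calc (a : ℝ) = a * 1 * 1 := by ring
            _ ≤ a * B * B := by gcongr

/-- **Effective Siegel theorem for curves with an anchored radical at infinity.** -/
theorem anchored_poly {n nu : ℕ} (hn : 4 ≤ n) (h3 : 3 ≤ nu) (hnu : nu ≤ n) {a b : ℤ}
    (hb : 1 ≤ b) (hab : IsCoprime a b) (hne : a ≠ b) (ha : (2 : ℤ) ^ (1100 * n ^ 5) ≤ a)
    (hδ : |b - a| ^ (100 * n) ≤ a) (F : MvPolynomial (Fin 2) ℤ) (hdeg : F.totalDegree ≤ n)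
    (hirr : Irreducible (MvPolynomial.map (Int.castRingHom ℚ)
        (MvPolynomial.homogeneousComponent n F)))
    (hroot : ∃ γ : AdjoinRoot (MvPolynomial.aeval ![(1 : ℚ[X]), X]
        (MvPolynomial.homogeneousComponent n F)),
      (a : AdjoinRoot (MvPolynomial.aeval ![(1 : ℚ[X]), X]
        (MvPolynomial.homogeneousComponent n F))) * γ ^ nu = b)
    (x y : ℤ) (hz : MvPolynomial.eval ![x, y] F = 0) :
    max |x| |y| ≤ a ^ (15000 * n ^ 4) *
      ((F.support.sup fun m => (F.coeff m).natAbs : ℕ) : ℤ) ^ (400000 * n ^ 7) := by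
  have haR : (2 : ℝ) ^ (1100 * n ^ 5) ≤ (a : ℝ) := by exact_mod_cast ha
  have hδR : |(b : ℝ) - a| ^ (100 * n) ≤ (a : ℝ) := by exact_mod_cast hδ
  obtain ⟨ha2, ha1⟩ := num_a hn haR
  have hbd := coeff_le_sup F
  set H := F.support.sup fun m => (F.coeff m).natAbs with hH
  rw [aeval_lead] at hroot
  obtain ⟨γ, hγ⟩ := hroot
  obtain ⟨hG0, hirr'⟩ := leadQ_of_irreducible (by omega) hirr
  have hz' : ev n (arrM F) x y = 0 := by rw [← eval_arrM hdeg]; exact hz
  have hH1 : 1 ≤ H := by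
    by_contra hc
    have h0 : H = 0 := by omega
    have h1 := hbd (ex 0 n)
    rw [h0] at h1
    apply hG0
    have h2 : F.coeff (ex 0 n) = 0 := by
      have h3 := abs_nonneg (F.coeff (ex 0 n))
      have h4 : |F.coeff (ex 0 n)| ≤ 0 := by simpa using h1
      exact abs_eq_zero.1 (le_antisymm h4 h3)
    exact h2
  have hmain := anchored_array hn h3 hnu hb hab hne haR hδR (arrM F) hG0 hirr' γ hγ (max 2 H)
    (le_max_left _ _) (fun i j _ => (hbd _).trans (by exact_mod_cast le_max_right 2 H)) x y hz'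
  have hHR : (1 : ℝ) ≤ H := by exact_mod_cast hH1
  have hfin : ((max |x| |y| : ℤ) : ℝ) ≤
      (a : ℝ) ^ (15000 * n ^ 4) * (H : ℝ) ^ (400000 * n ^ 7) := by
    refine hmain.trans ?_
    have e1 : (((max 2 H : ℕ) : ℝ)) ≤ 2 * H := by
      push_cast
      exact max_le (by linarith) (by linarith)
    have e2 : (((max 2 H : ℕ) : ℝ)) ^ (372740 * n ^ 7) ≤
        (a : ℝ) ^ (339 * n ^ 2) * (H : ℝ) ^ (372740 * n ^ 7) := by
      refine (pow_le_pow_left₀ (Nat.cast_nonneg _) e1 _).trans ?_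
      rw [mul_pow]
      refine mul_le_mul_of_nonneg_right ?_ (by positivity)
      calc (2 : ℝ) ^ (372740 * n ^ 7) ≤ (2 : ℝ) ^ (1100 * n ^ 5 * (339 * n ^ 2)) := by
            refine pow_le_pow_right₀ (by norm_num) ?_
            have : 1100 * n ^ 5 * (339 * n ^ 2) = 372900 * n ^ 7 := by ring
            rw [this]
            exact Nat.mul_le_mul_right _ (by norm_num)
        _ = ((2 : ℝ) ^ (1100 * n ^ 5)) ^ (339 * n ^ 2) := by rw [pow_mul]
        _ ≤ (a : ℝ) ^ (339 * n ^ 2) := pow_le_pow_left₀ (by positivity) haR _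
    calc (a : ℝ) ^ (13312 * n ^ 4) * (((max 2 H : ℕ) : ℝ)) ^ (372740 * n ^ 7)
        ≤ (a : ℝ) ^ (13312 * n ^ 4) * ((a : ℝ) ^ (339 * n ^ 2) *
          (H : ℝ) ^ (372740 * n ^ 7)) := by gcongr
      _ = (a : ℝ) ^ (13312 * n ^ 4 + 339 * n ^ 2) * (H : ℝ) ^ (372740 * n ^ 7) := by
          rw [pow_add]; ring
      _ ≤ (a : ℝ) ^ (15000 * n ^ 4) * (H : ℝ) ^ (400000 * n ^ 7) := by
          refine mul_le_mul (pow_le_pow_right₀ ha1.le ?_) (pow_le_pow_right₀ hHR ?_)
            (by positivity) (by positivity)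
          · have : n ^ 2 ≤ n ^ 4 := Nat.pow_le_pow_right (by omega) (by norm_num)
            omega
          · exact Nat.mul_le_mul_right _ (by norm_num)
  exact_mod_cast hfin

end Pool.Agent.H97.AN
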