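import Pool.Agent.H97.AN.Defs
import Pool.Agent.H8.KF.CoeffHouse

/-! # [AN-DUAL] Coordinates of `f'(α) β` for an algebraic integer `β`

`K` is a number field of degree `n` (`FiniteDimensional` from `finrank = n > 0`), `α` a root of the
monic irreducible `f ∈ ℤ[X]` of degree `n`; `minpoly ℚ α = f.map (algebraMap ℤ ℚ)`
(`minpoly.eq_of_irreducible_of_monic`, see `nfac_of_field` in `Pool.Agent.H8.KF.FieldFac`), so
`α` generates `K`: power basis `pb` with `pb.gen = α`, `pb.dim = n`.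
Mathlib: `traceForm_dualBasis_powerBasis_eq : (Algebra.traceForm K L).dualBasis
(traceForm_nondegenerate K L) pb.basis i = (minpolyDiv K pb.gen).coeff i / aeval pb.gen (derivative
(minpoly K pb.gen))`. For `z = β f'(α)`: `pb.basis.repr z j = trace (z * dual j) =
trace (β * (minpolyDiv ℚ α).coeff j)`.
(`LinearMap.BilinForm.sum_dualBasis_smul..`, `LinearMap.BilinForm.apply_dualBasis_left` etc.)
`(minpolyDiv ℚ α).coeff j = ∑_{l > j} f_l α^(l-j-1)` (e.g. from `minpolyDiv_spec :
minpolyDiv R x * (X - C x) = (minpoly R x).map (algebraMap R S)` and downward recursion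
`coeff_minpolyDiv : coeff (minpolyDiv R x) i = algebraMap R S (coeff (minpoly R x) (i + 1)) +
coeff (minpolyDiv R x) (i + 1) * x`). It is integral, so the trace is an integer
(`Algebra.isIntegral_trace`, `IsIntegrallyClosed`), and `|trace x| ≤ ∑_σ ‖σ x‖`
(`Algebra.trace_eq_sum_embeddings` with `E = ℂ`, `n` embeddings
`NumberField.Embeddings.card`/`AlgHom.card`); `‖σ α‖ ≤ Q + 1` (`root_norm_le` in
`Pool.Agent.H8.KF.CoeffHouse`), so `‖σ ((minpolyDiv ℚ α).coeff j)‖ ≤ n Q (Q+1)^(n-1) ≤ Q^2 (Q^2)^(n-1)`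
and `|coordinate| ≤ n W Q^(2n) ≤ W Q^(2n+1)`. -/

namespace Pool.Agent.H97.AN

open Finset Polynomial Pool.Agent.H72.ES

/-- bounds for the coefficients of `minpolyDiv` under an embedding -/
theorem mdiv_bound {n Q : ℕ} (hQ : 1 ≤ Q) {f : ℤ[X]} (hm : f.Monic)
    (hd : f.natDegree = n) (hc : ∀ j, |f.coeff j| ≤ (Q : ℤ)) (K : Type)
    [Field K] [CharZero K] (α : K) (hα : aeval α f = 0)
    (hmin : f.map (algebraMap ℤ ℚ) = minpoly ℚ α) (σ : K →+* ℂ) (k : ℕ) (hk : k ≤ n) :
    ‖σ ((minpolyDiv ℚ α).coeff (n - k))‖ ≤ ((Q : ℝ) + 1) ^ k - 1 := by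
  have hroot : (f.map (Int.castRingHom ℂ)).IsRoot (σ α) := by
    have h1 := Polynomial.hom_eval₂ f (algebraMap ℤ K) σ α
    rw [← aeval_def, hα, map_zero] at h1
    have h2 : σ.comp (algebraMap ℤ K) = Int.castRingHom ℂ := RingHom.ext_int _ _
    rw [h2] at h1
    rw [IsRoot, eval_map]
    exact h1.symm
  have hα1 : ‖σ α‖ ≤ (Q : ℝ) + 1 := Pool.Agent.H8.KF.root_norm_le hm hc hroot
  have hQ0 : (1 : ℝ) ≤ Q := by exact_mod_cast hQ
  induction k with
  | zero =>
    have h1 : (minpolyDiv ℚ α).coeff (n - 0) = 0 := by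
      apply coeff_eq_zero_of_natDegree_lt
      rw [natDegree_minpolyDiv, ← hmin, hm.natDegree_map, hd]
      rcases Nat.eq_zero_or_pos n with h | h
      · exfalso
        rw [h] at hd
        have := (hm.natDegree_eq_zero).1 hd
        rw [this] at hα
        simp at hα
      · omega
    rw [h1, map_zero, norm_zero, pow_zero, sub_self]
  | succ k ih =>
    have ih' := ih (by omega)
    have h1 := coeff_minpolyDiv ℚ α (n - (k + 1))
    have h2 : n - (k + 1) + 1 = n - k := by omega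
    rw [h2, ← hmin, coeff_map] at h1
    rw [h1, map_add, map_mul]
    have h3 : σ ((algebraMap ℚ K) ((algebraMap ℤ ℚ) (f.coeff (n - k)))) =
        ((f.coeff (n - k) : ℤ) : ℂ) := by
      simp
    rw [h3]
    have h4 : ‖((f.coeff (n - k) : ℤ) : ℂ)‖ ≤ (Q : ℝ) := by
      rw [Complex.norm_intCast]
      exact_mod_cast hc (n - k)
    calc ‖((f.coeff (n - k) : ℤ) : ℂ) + σ ((minpolyDiv ℚ α).coeff (n - k)) * σ α‖
        ≤ ‖((f.coeff (n - k) : ℤ) : ℂ)‖ + ‖σ ((minpolyDiv ℚ α).coeff (n - k)) * σ α‖ :=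
          norm_add_le _ _
      _ ≤ (Q : ℝ) + (((Q : ℝ) + 1) ^ k - 1) * ((Q : ℝ) + 1) := by
          rw [norm_mul]
          have h5 : (0 : ℝ) ≤ ((Q : ℝ) + 1) ^ k - 1 := (norm_nonneg _).trans ih'
          gcongr
      _ = ((Q : ℝ) + 1) ^ (k + 1) - 1 := by ring

theorem dual_coords {n Q : ℕ} (hn : 4 ≤ n) (hQ : 2 ^ n ≤ Q) {f : ℤ[X]} (hm : f.Monic)
    (hd : f.natDegree = n) (hc : ∀ j, |f.coeff j| ≤ (Q : ℤ)) (hf : Irreducible f) (K : Type)
    [Field K] [CharZero K] (hK : Module.finrank ℚ K = n) (α : K) (hα : aeval α f = 0) (β : K)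
    (hβ : IsIntegral ℤ β) (W : ℝ) (hW : ∀ σ : K →+* ℂ, ‖σ β‖ ≤ W) :
    ∃ p : ℤ[X], p.natDegree < n ∧ aeval α p = β * aeval α (derivative f) ∧
      ∀ j, |((p.coeff j : ℤ) : ℝ)| ≤ W * (Q : ℝ) ^ (2 * n + 1) := by
  have hfin : FiniteDimensional ℚ K := Module.finite_of_finrank_pos (by omega)
  have hZ : IsIntegral ℤ α := ⟨f, hm, hα⟩
  have hI : IsIntegral ℚ α := hZ.tower_top
  have hmin : f.map (algebraMap ℤ ℚ) = minpoly ℚ α := by
    refine minpoly.eq_of_irreducible_of_monic ?_ ?_ (hm.map _)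
    · exact (hm.irreducible_iff_irreducible_map_fraction_map (K := ℚ)).1 hf
    · rw [aeval_map_algebraMap]
      exact hα
  have hdeg : (minpoly ℚ α).natDegree = Module.finrank ℚ K := by
    rw [← hmin, hm.natDegree_map, hd, hK]
  have htop : IntermediateField.adjoin ℚ {α} = ⊤ :=
    (Field.primitive_element_iff_minpoly_natDegree_eq ℚ α).2 hdeg
  have hadj : Algebra.adjoin ℚ {α} = ⊤ := by
    rw [← IntermediateField.adjoin_simple_toSubalgebra_of_isAlgebraic hI.isAlgebraic, htop,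
      IntermediateField.top_toSubalgebra]
  let pb : PowerBasis ℚ K := PowerBasis.ofAdjoinEqTop' hI hadj
  have hgen : pb.gen = α := PowerBasis.ofAdjoinEqTop'_gen hI hadj
  have hdim : pb.dim = n := by
    rw [PowerBasis.ofAdjoinEqTop'_dim hI hadj, hdeg, hK]
  have hder : aeval α (derivative (minpoly ℚ α)) = aeval α (derivative f) := by
    rw [← hmin, derivative_map, aeval_map_algebraMap]
  have hne : aeval α (derivative f) ≠ 0 := by
    rw [← hder]
    exact (Algebra.IsSeparable.isSeparable ℚ α).aeval_derivative_ne_zero (minpoly.aeval _ _)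
  -- integrality of the coefficients of minpolyDiv
  have hcint : ∀ i, IsIntegral ℤ ((minpolyDiv ℚ α).coeff i) := by
    intro i
    rw [← minpolyDiv_eq_of_isIntegrallyClosed ℚ hZ]
    have h1 := coeff_minpolyDiv_mem_adjoin (R := ℤ) α i
    exact IsIntegral.of_mem_of_fg _ hZ.fg_adjoin_singleton _ h1
  have htr : ∀ i, ∃ t : ℤ, (algebraMap ℤ ℚ) t = Algebra.trace ℚ K
      (β * (minpolyDiv ℚ α).coeff i) := by
    intro i
    exact IsIntegrallyClosed.algebraMap_eq_of_integral
      (Algebra.isIntegral_trace (hβ.mul (hcint i)))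
  choose t ht using htr
  have hrepr : ∀ i : Fin pb.dim, pb.basis.repr (β * aeval α (derivative f)) i =
      Algebra.trace ℚ K (β * (minpolyDiv ℚ α).coeff i) := by
    intro i
    have h1 := Module.Basis.traceDual_repr_apply pb.basis.traceDual
      (β * aeval α (derivative f)) i
    rw [Module.Basis.traceDual_traceDual] at h1
    rw [h1, Algebra.traceForm_apply, Module.Basis.traceDual_powerBasis_eq, hgen, hder]
    congr 1
    field_simp
  refine ⟨∑ i ∈ range n, C (t i) * X ^ i, ?_, ?_, ?_⟩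
  · have h1 : (∑ i ∈ range n, C (t i) * X ^ i : ℤ[X]).natDegree ≤ n - 1 := by
      refine natDegree_sum_le_of_forall_le _ _ fun i hi => ?_
      refine (natDegree_C_mul_X_pow_le (t i) i).trans ?_
      have := Finset.mem_range.1 hi
      omega
    omega
  · have h1 := pb.basis.sum_repr (β * aeval α (derivative f))
    rw [← h1, map_sum]
    have h2 : ∀ i : Fin pb.dim, pb.basis.repr (β * aeval α (derivative f)) i • pb.basis i =
        (algebraMap ℤ K) (t i) * α ^ (i : ℕ) := by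
      intro i
      rw [hrepr, ← ht, PowerBasis.coe_basis, hgen, Algebra.smul_def,
        ← IsScalarTower.algebraMap_apply ℤ ℚ K]
    rw [Finset.sum_congr rfl (fun i _ => h2 i)]
    rw [← Finset.sum_range (fun i => (algebraMap ℤ K) (t i) * α ^ i), hdim]
    refine Finset.sum_congr rfl fun i _ => ?_
    rw [map_mul, map_pow, aeval_X, aeval_C]
  · intro j
    have hQ16 : 16 ≤ Q := by
      calc 16 = 2 ^ 4 := by norm_num
        _ ≤ 2 ^ n := Nat.pow_le_pow_right (by norm_num) hn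
        _ ≤ Q := hQ
    have hQ1 : (16 : ℝ) ≤ Q := by exact_mod_cast hQ16
    have hnQ : (n : ℝ) ≤ Q := by
      have : n ≤ Q := (Nat.lt_two_pow_self.le).trans hQ
      exact_mod_cast this
    have hcard : Fintype.card (K →ₐ[ℚ] ℂ) = n := by
      rw [AlgHom.card ℚ K ℂ, hK]
    have hW0 : 0 ≤ W := by
      have : 0 < Fintype.card (K →ₐ[ℚ] ℂ) := by
        rw [hcard]
        omega
      obtain ⟨σ⟩ := Fintype.card_pos_iff.1 this
      exact (norm_nonneg _).trans (hW σ.toRingHom)
    have hcoef : (∑ i ∈ range n, C (t i) * X ^ i : ℤ[X]).coeff j =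
        if j < n then t j else 0 := by
      rw [finsetSum_coeff]
      simp only [coeff_C_mul, coeff_X_pow, mul_ite, mul_one, mul_zero]
      rw [Finset.sum_ite_eq]
      simp only [Finset.mem_range]
    rw [hcoef]
    split_ifs with hj
    · have h1 : (((t j : ℤ) : ℝ) : ℂ) = ∑ σ : K →ₐ[ℚ] ℂ, σ (β * (minpolyDiv ℚ α).coeff j) := by
        rw [← trace_eq_sum_embeddings ℂ (K := ℚ) (L := K), ← ht j]
        simp
      have h2 : ‖(((t j : ℤ) : ℝ) : ℂ)‖ = |((t j : ℤ) : ℝ)| := by
        rw [Complex.norm_real, Real.norm_eq_abs]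
      rw [← h2, h1]
      calc ‖∑ σ : K →ₐ[ℚ] ℂ, σ (β * (minpolyDiv ℚ α).coeff j)‖
          ≤ ∑ σ : K →ₐ[ℚ] ℂ, ‖σ (β * (minpolyDiv ℚ α).coeff j)‖ := norm_sum_le _ _
        _ ≤ ∑ σ : K →ₐ[ℚ] ℂ, W * ((Q : ℝ) + 1) ^ n := by
            refine Finset.sum_le_sum fun σ _ => ?_
            rw [map_mul, norm_mul]
            have h3 := hW σ.toRingHom
            have h4 := mdiv_bound (by omega : 1 ≤ Q) hm hd hc K α hα hmin σ.toRingHom (n - j)
              (by omega)
            have h5 : n - (n - j) = j := by omega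
            rw [h5] at h4
            have h6 : ((Q : ℝ) + 1) ^ (n - j) - 1 ≤ ((Q : ℝ) + 1) ^ n := by
              have : ((Q : ℝ) + 1) ^ (n - j) ≤ ((Q : ℝ) + 1) ^ n :=
                pow_le_pow_right₀ (by linarith) (by omega)
              linarith
            exact mul_le_mul h3 (h4.trans h6) (norm_nonneg _) hW0
        _ = n * (W * ((Q : ℝ) + 1) ^ n) := by
            rw [Finset.sum_const, Finset.card_univ, hcard, nsmul_eq_mul]
        _ ≤ Q * (W * ((Q : ℝ) ^ 2) ^ n) := by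
            have h7 : (Q : ℝ) + 1 ≤ (Q : ℝ) ^ 2 := by nlinarith
            gcongr
        _ = W * (Q : ℝ) ^ (2 * n + 1) := by
            rw [← pow_mul]
            ring
    · rw [Int.cast_zero, abs_zero]
      positivity

end Pool.Agent.H97.AN
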