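import Pool.Agent.H97.AN.Defs

/-! # [AN-Z] A nonzero polynomial `shp` with high order at `1` has a large coefficient

Let `s = k / nu`. Choose `j0` minimal with some `c j0 i0 ≠ 0`, `i0 < nu`, `j0 ≤ M` (exists since
`shp ≠ 0`). Let `R = ZMod (a^(s+j0))` (natural number modulus `a.toNat ^ (s + j0)`), map `shp` to
`R[X]`: the terms with `j < j0` vanish (`c j i = 0`), those with `j ≥ s + j0` vanish mod
`a^(s+j0)`. So the image is `X^(nu j0) * N'`,
`N' = ∑_{j0 ≤ j < min(s+j0, M+1)} c j i a^j b^(M-j) X^(nu (j - j0) + i)`, of degree `< nu s ≤ k`.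
`(X-1)^k` is coprime to `X^(nu j0)` (`IsCoprime (X - 1) X` in any commutative ring, `IsCoprime.pow`),
so `(X-1)^k ∣ N'`, and `N' = 0` since `(X-1)^k` is monic of degree `k` (`Monic.not_dvd_of_natDegree_lt`
or `Monic.not_dvd_of_degree_lt`). The coefficient of `X^(i0)` of `N'`: `a^(s+j0) ∣ c j0 i0 a^(j0)
b^(M-j0)`, so `a^s ∣ c j0 i0` (`IsCoprime`), `a^s ≤ |c j0 i0| ≤ H`. (If `s = 0` it is trivial.) -/

namespace Pool.Agent.H97.AN

open Finset Polynomial Pool.Agent.H72.ES

theorem lemZ {nu M : ℕ} (hnu : 1 ≤ nu) {a b : ℤ} (ha : 1 ≤ a) (hab : IsCoprime a b)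
    (c : ℕ → ℕ → ℤ) (H : ℝ) (hH : ∀ j ≤ M, ∀ i < nu, |((c j i : ℤ) : ℝ)| ≤ H)
    (hne : shp nu M a b c ≠ 0) (k : ℕ) (hdvd : (X - 1 : ℤ[X]) ^ k ∣ shp nu M a b c) :
    (a : ℝ) ^ (k / nu) ≤ H := by
  classical
  -- minimal `j0`
  have hex : ∃ j, j ≤ M ∧ ∃ i < nu, c j i ≠ 0 := by
    by_contra hcon
    push Not at hcon
    apply hne
    unfold shp
    refine Finset.sum_eq_zero (fun j hj => Finset.sum_eq_zero (fun i hi => ?_))
    rw [hcon j (by have := Finset.mem_range.1 hj; omega) i (Finset.mem_range.1 hi)]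
    simp
  obtain ⟨hj0M, i0, hi0, hc0⟩ := Nat.find_spec hex
  have hmin : ∀ j, j < Nat.find hex → ∀ i < nu, c j i = 0 := by
    intro j hj i hi
    by_contra hcon
    exact Nat.find_min hex hj ⟨by omega, i, hi, hcon⟩
  generalize Nat.find hex = j0 at hj0M hc0 hmin
  clear hex
  set s := k / nu with hs
  have hsk : nu * s ≤ k := Nat.mul_div_le k nu
  have ha0 : a ≠ 0 := by omega
  -- reduction to divisibility
  suffices hd : a ^ (s + j0) ∣ c j0 i0 * (a ^ j0 * b ^ (M - j0)) by
    have h1 : a ^ s * a ^ j0 ∣ (c j0 i0 * b ^ (M - j0)) * a ^ j0 := by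
      rw [← pow_add]
      convert hd using 1
      ring
    have h2 : a ^ s ∣ c j0 i0 * b ^ (M - j0) :=
      (mul_dvd_mul_iff_right (pow_ne_zero j0 ha0)).1 h1
    have h3 : a ^ s ∣ c j0 i0 := (hab.pow (m := s) (n := M - j0)).dvd_of_dvd_mul_right h2
    have h4 : a ^ s ≤ |c j0 i0| := Int.le_of_dvd (abs_pos.2 hc0) ((dvd_abs _ _).2 h3)
    have h5 : ((a ^ s : ℤ) : ℝ) ≤ ((|c j0 i0| : ℤ) : ℝ) := by exact_mod_cast h4
    have h6 := hH j0 hj0M i0 hi0
    push_cast at h5
    exact h5.trans h6
  rcases Nat.eq_zero_or_pos s with hs0 | hspos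
  · rw [hs0, zero_add]
    exact ⟨c j0 i0 * b ^ (M - j0), by ring⟩
  set N : ℕ := a.toNat ^ (s + j0) with hN
  have hNa : (N : ℤ) = a ^ (s + j0) := by
    rw [hN]
    push_cast
    rw [Int.toNat_of_nonneg (by omega)]
  by_cases hN1 : N = 1
  · rw [← hNa, hN1]
    simp
  have hNpos : 0 < N := by
    have : 0 < a ^ (s + j0) := by positivity
    omega
  have : Fact (1 < N) := ⟨by omega⟩
  have : Nontrivial (ZMod N) := inferInstance
  let φ : ℤ →+* ZMod N := Int.castRingHom (ZMod N)
  have hφ : ∀ x : ℤ, φ x = 0 ↔ a ^ (s + j0) ∣ x := by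
    intro x
    rw [← hNa]
    exact CharP.intCast_eq_zero_iff (ZMod N) N x
  let T : ℕ → ℕ → (ZMod N)[X] := fun j i =>
    if j0 ≤ j ∧ j < s + j0 then C (φ (c j i * (a ^ j * b ^ (M - j)))) * X ^ (nu * (j - j0) + i)
    else 0
  let N' : (ZMod N)[X] := ∑ j ∈ range (M + 1), ∑ i ∈ range nu, T j i
  have hmap : (shp nu M a b c).map φ = X ^ (nu * j0) * N' := by
    unfold shp
    simp only [Polynomial.map_sum, N', Finset.mul_sum, Polynomial.map_mul, Polynomial.map_pow,
      Polynomial.map_C, Polynomial.map_X]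
    refine Finset.sum_congr rfl (fun j hj => Finset.sum_congr rfl (fun i hi => ?_))
    simp only [T]
    by_cases h1 : j0 ≤ j
    · by_cases h2 : j < s + j0
      · rw [if_pos ⟨h1, h2⟩]
        have h3 : nu * j + i = nu * j0 + (nu * (j - j0) + i) := by
          have : nu * j = nu * j0 + nu * (j - j0) := by
            rw [← mul_add]
            congr 1
            omega
          omega
        rw [h3, pow_add]
        ring
      · rw [if_neg (fun h => h2 h.2)]
        have h3 : φ (c j i * (a ^ j * b ^ (M - j))) = 0 := by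
          rw [hφ]
          refine Dvd.dvd.mul_left (Dvd.dvd.mul_right (pow_dvd_pow a (by omega)) _) _
        rw [h3]
        simp
    · rw [if_neg (fun h => h1 h.1), hmin j (by omega) i (Finset.mem_range.1 hi)]
      simp
  have hdeg : N' ∈ degreeLT (ZMod N) k := by
    refine Submodule.sum_mem _ (fun j hj => Submodule.sum_mem _ (fun i hi => ?_))
    simp only [T]
    split_ifs with h
    · rw [mem_degreeLT]
      refine lt_of_le_of_lt (degree_C_mul_X_pow_le _ _) ?_
      have h1 : nu * (j - j0) + nu ≤ nu * s := by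
        have : nu * (j - j0) + nu = nu * (j - j0 + 1) := by ring
        rw [this]
        exact Nat.mul_le_mul_left nu (by omega)
      have h2 := Finset.mem_range.1 hi
      exact_mod_cast (by omega : nu * (j - j0) + i < k)
    · exact Submodule.zero_mem _
  have hdvd' : (X - 1 : (ZMod N)[X]) ^ k ∣ N' := by
    have h1 : (X - 1 : (ZMod N)[X]) ^ k ∣ X ^ (nu * j0) * N' := by
      rw [← hmap]
      have h2 := Polynomial.map_dvd φ hdvd
      simpa only [Polynomial.map_pow, Polynomial.map_sub, Polynomial.map_X, Polynomial.map_one]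
        using h2
    have h3 : IsCoprime (X - 1 : (ZMod N)[X]) X := ⟨-1, 1, by ring⟩
    exact (h3.pow (m := k) (n := nu * j0)).dvd_of_dvd_mul_left h1
  have hzero : N' = 0 := by
    by_contra hcon
    have hmon : ((X - 1 : (ZMod N)[X]) ^ k).Monic := by
      have : (X - 1 : (ZMod N)[X]).Monic := by
        have h := monic_X_sub_C (1 : ZMod N)
        rwa [C_1] at h
      exact this.pow k
    refine hmon.not_dvd_of_degree_lt hcon ?_ hdvd'
    rw [mem_degreeLT] at hdeg
    refine lt_of_lt_of_le hdeg ?_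
    have h1 : (X - 1 : (ZMod N)[X]) = X - C 1 := by rw [C_1]
    have h2 : (X - C (1 : ZMod N)).Monic := monic_X_sub_C 1
    rw [h1, degree_eq_natDegree (h2.pow k).ne_zero, h2.natDegree_pow, natDegree_X_sub_C, mul_one]
  have hcoeff : N'.coeff i0 = φ (c j0 i0 * (a ^ j0 * b ^ (M - j0))) := by
    simp only [N', finsetSum_coeff]
    rw [Finset.sum_eq_single j0, Finset.sum_eq_single i0]
    · simp only [T]
      rw [if_pos ⟨le_refl _, by omega⟩, coeff_C_mul, coeff_X_pow, if_pos (by simp), mul_one]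
    · intro i hi hii
      simp only [T]
      rw [if_pos ⟨le_refl _, by omega⟩, coeff_C_mul, coeff_X_pow, if_neg (by simp; omega),
        mul_zero]
    · intro h
      exact absurd (Finset.mem_range.2 hi0) h
    · intro j hj hjj
      refine Finset.sum_eq_zero (fun i hi => ?_)
      simp only [T]
      split_ifs with h
      · rw [coeff_C_mul, coeff_X_pow, if_neg, mul_zero]
        intro h1
        have h2 : nu ≤ nu * (j - j0) := Nat.le_mul_of_pos_right nu (by omega)
        omega
      · exact coeff_zero _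
    · intro h
      exact absurd (Finset.mem_range.2 (by omega)) h
  rw [← hφ, ← hcoeff, hzero, coeff_zero]

end Pool.Agent.H97.AN
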